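import Pool.Agent.Lib.MP_0087d5_lcQE.W5
import Pool.Agent.Lib.MP_0087d5_lcQN.SG

/-!
# All the graphs in a ball

`main` for the graphs which agree with `G` outside a set `W` gives, with a union bound over the sets `W` and the sets `D` of pairs with `W.card + D.card ≤ r`, one set of exceptional sources for all the graphs which arise
from `G` by changes inside a set `W` of vertices and changes on a set `D` of pairs, `W.card + D.card ≤ r`.
-/

set_option autoImplicit false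
set_option linter.all false

namespace QLE

open Finset Pool.Agent Pool.Agent.PMNC MTC LIN PRS QRB QSR QLN

/-- the graph `G` changed on the set `E` of pairs -/
def chg {n : ℕ} (G : SimpleGraph (Fin n)) (E : Finset (Sym2 (Fin n))) : SimpleGraph (Fin n) where
  Adj u v := u ≠ v ∧ Xor (G.Adj u v) (s(u, v) ∈ E)
  symm := ⟨fun u v h => ⟨h.1.symm, by rw [G.adj_comm, Sym2.eq_swap]; exact h.2⟩⟩
  loopless := ⟨fun _ h => h.1 rfl⟩

theorem off_chg {n : ℕ} (G G' : SimpleGraph (Fin n)) (W : Finset (Fin n)) (D : Finset (Sym2 (Fin n)))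
    (h : ∀ u v, ¬ (u ∈ W ∧ v ∈ W) → s(u, v) ∉ D → (G'.Adj u v ↔ G.Adj u v)) :
    ∃ E : Finset (Sym2 (Fin n)), E.card ≤ D.card ∧ ∀ u v, ¬ (u ∈ W ∧ v ∈ W) → (G'.Adj u v ↔ (chg G E).Adj u v) := by
  classical
  refine ⟨D.filter fun e => Xor (e ∈ G'.edgeSet) (e ∈ G.edgeSet), card_filter_le _ _, ?_⟩
  intro u v huv
  have h1 := h u v huv
  show _ ↔ u ≠ v ∧ Xor (G.Adj u v) (s(u, v) ∈ D.filter fun e => Xor (e ∈ G'.edgeSet) (e ∈ G.edgeSet))
  rw [mem_filter, SimpleGraph.mem_edgeSet, SimpleGraph.mem_edgeSet]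
  have h2 : G'.Adj u v → u ≠ v := fun h => h.ne
  have h3 : G.Adj u v → u ≠ v := fun h => h.ne
  unfold Xor
  tauto

theorem ball {C : ℕ} (hW : IsoMostW C) :
    ∃ (M : ∀ n : ℕ, SimpleGraph (Fin n) → SimpleGraph (Fin n) → SimpleGraph (Fin n)) (U : ∀ n : ℕ, SimpleGraph (Fin n) → SimpleGraph (Fin n) → Set (Fin n)) (C' : ℕ),
    AUG.RelNC2 2 (fun n G A x => (M n G A).Adj (x 0) (x 1)) ∧ AUG.RelNC2 1 (fun n G A x => x 0 ∈ U n G A) ∧
    (∀ (n : ℕ) (G A : SimpleGraph (Fin n)), M n G A ≤ G ∧ ∀ u v w, (M n G A).Adj u v → (M n G A).Adj u w → v = w) ∧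
    ∀ (n : ℕ) (G : SimpleGraph (Fin n)) (r : ℕ),
      Nat.card {A : SimpleGraph (Fin n) // ∃ (W : Finset (Fin n)) (D : Finset (Sym2 (Fin n))) (G' : SimpleGraph (Fin n)), W.card + D.card ≤ r ∧
        (∀ u v, ¬ (u ∈ W ∧ v ∈ W) → s(u, v) ∉ D → (G'.Adj u v ↔ G.Adj u v)) ∧
        ((⊤ : G'.Subgraph).deleteVerts (U n G' A)).coe.oddComponents.ncard ≠ (U n G' A).ncard + {v | ∀ w, ¬ (M n G' A).Adj v w}.ncard} ≤
      n ^ (C' * (r + Nat.log 2 n)) := by
  classical
  obtain ⟨M, U, C', h1, h2, h3, h4⟩ := main hW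
  refine ⟨M, U, C' + 5, h1, h2, h3, ?_⟩
  intro n G r
  rcases Nat.lt_or_ge n 2 with hn | hn
  · rcases Nat.lt_or_ge n 1 with hn0 | hn1
    · obtain rfl : n = 0 := by omega
      have h5 : IsEmpty {A : SimpleGraph (Fin 0) // ∃ (W : Finset (Fin 0)) (D : Finset (Sym2 (Fin 0))) (G' : SimpleGraph (Fin 0)), W.card + D.card ≤ r ∧
        (∀ u v, ¬ (u ∈ W ∧ v ∈ W) → s(u, v) ∉ D → (G'.Adj u v ↔ G.Adj u v)) ∧
        ((⊤ : G'.Subgraph).deleteVerts (U 0 G' A)).coe.oddComponents.ncard ≠ (U 0 G' A).ncard + {v | ∀ w, ¬ (M 0 G' A).Adj v w}.ncard} := by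
        refine ⟨?_⟩
        rintro ⟨A, W, D, G', -, -, h⟩
        apply h
        have h6 : (U 0 G' A).ncard = 0 := by
          rw [Set.eq_empty_of_isEmpty (U 0 G' A), Set.ncard_empty]
        have h7 : {v : Fin 0 | ∀ w, ¬ (M 0 G' A).Adj v w}.ncard = 0 := by
          rw [Set.eq_empty_of_isEmpty {v : Fin 0 | ∀ w, ¬ (M 0 G' A).Adj v w}, Set.ncard_empty]
        rw [h6, h7]
        haveI : IsEmpty ((⊤ : G'.Subgraph).deleteVerts (U 0 G' A)).coe.ConnectedComponent :=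
          ⟨fun c => c.ind fun v => v.1.elim0⟩
        rw [Set.eq_empty_of_isEmpty ((⊤ : G'.Subgraph).deleteVerts (U 0 G' A)).coe.oddComponents, Set.ncard_empty]
      rw [Nat.card_of_isEmpty]
      exact Nat.zero_le _
    · obtain rfl : n = 1 := by omega
      rw [one_pow]
      exact Finite.card_le_one_iff_subsingleton.2 inferInstance
  · set bad : SimpleGraph (Fin n) → SimpleGraph (Fin n) → Prop := fun G' A =>
      ((⊤ : G'.Subgraph).deleteVerts (U n G' A)).coe.oddComponents.ncard ≠ (U n G' A).ncard + {v | ∀ w, ¬ (M n G' A).Adj v w}.ncard with hbad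
    have hx1 := card_small (univ : Finset (Fin n)) r
    have hx2 := card_small (univ : Finset (Sym2 (Fin n))) r
    set I := ((univ : Finset (Fin n)).powerset.filter fun T => T.card ≤ r) ×ˢ ((univ : Finset (Sym2 (Fin n))).powerset.filter fun T => T.card ≤ r) with hI
    have hs : Fintype.card (Sym2 (Fin n)) ≤ n * n := by
      have h5 : Function.Surjective (fun e : Fin n × Fin n => (s(e.1, e.2) : Sym2 (Fin n))) := fun e => by
        induction e using Sym2.inductionOn with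
        | hf a b => exact ⟨(a, b), rfl⟩
      have h6 := Fintype.card_le_of_surjective _ h5
      rwa [Fintype.card_prod, Fintype.card_fin] at h6
    have hIc : I.card ≤ n ^ (5 * r) := by
      rw [hI, card_product]
      have h5 : (n + 1) ^ r ≤ (n ^ 2) ^ r := Nat.pow_le_pow_left (by nlinarith) r
      have h6 : (Fintype.card (Sym2 (Fin n)) + 1) ^ r ≤ (n ^ 3) ^ r := Nat.pow_le_pow_left (by
        have h8 : n * n * 2 ≤ n ^ 3 := by
          rw [pow_succ, pow_two]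
          exact Nat.mul_le_mul_left _ hn
        have h9 : 1 ≤ n * n := Nat.mul_pos (by omega) (by omega)
        omega) r
      rw [card_univ, Fintype.card_fin] at hx1
      rw [card_univ] at hx2
      calc _ ≤ (n + 1) ^ r * (Fintype.card (Sym2 (Fin n)) + 1) ^ r := Nat.mul_le_mul hx1 hx2
        _ ≤ (n ^ 2) ^ r * (n ^ 3) ^ r := Nat.mul_le_mul h5 h6
        _ = n ^ (5 * r) := by
          rw [← pow_mul, ← pow_mul, ← pow_add]
          congr 1
          ring
    have hT : ∀ i ∈ I, {A : SimpleGraph (Fin n) | ∃ G' : SimpleGraph (Fin n), (∀ u v, ¬ (u ∈ i.1 ∧ v ∈ i.1) → (G'.Adj u v ↔ (chg G i.2).Adj u v)) ∧ bad G' A}.ncard ≤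
        n ^ (C' * (r + Nat.log 2 n)) := by
      intro i hi
      have h5 : i.1.card ≤ r := (mem_filter.1 (mem_product.1 hi).1).2
      refine le_trans (h4 n (chg G i.2) i.1) (Nat.pow_le_pow_right (by omega) ?_)
      exact Nat.mul_le_mul_left _ (by omega)
    have hsub : {A : SimpleGraph (Fin n) | ∃ (W : Finset (Fin n)) (D : Finset (Sym2 (Fin n))) (G' : SimpleGraph (Fin n)), W.card + D.card ≤ r ∧
        (∀ u v, ¬ (u ∈ W ∧ v ∈ W) → s(u, v) ∉ D → (G'.Adj u v ↔ G.Adj u v)) ∧ bad G' A} ⊆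
        ⋃ i ∈ I, {A : SimpleGraph (Fin n) | ∃ G' : SimpleGraph (Fin n), (∀ u v, ¬ (u ∈ i.1 ∧ v ∈ i.1) → (G'.Adj u v ↔ (chg G i.2).Adj u v)) ∧ bad G' A} := by
      rintro A ⟨W, D, G', h5, h6, h7⟩
      obtain ⟨E, hE, hE'⟩ := off_chg G G' W D h6
      refine Set.mem_biUnion (x := (W, E)) ?_ ⟨G', hE', h7⟩
      rw [hI]
      refine mem_coe.2 (mem_product.2 ⟨mem_filter.2 ⟨mem_powerset.2 (subset_univ _), ?_⟩, mem_filter.2 ⟨mem_powerset.2 (subset_univ _), ?_⟩⟩)
      · show W.card ≤ r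
        omega
      · show E.card ≤ r
        omega
    have h5 : Nat.card {A : SimpleGraph (Fin n) // ∃ (W : Finset (Fin n)) (D : Finset (Sym2 (Fin n))) (G' : SimpleGraph (Fin n)), W.card + D.card ≤ r ∧
        (∀ u v, ¬ (u ∈ W ∧ v ∈ W) → s(u, v) ∉ D → (G'.Adj u v ↔ G.Adj u v)) ∧ bad G' A} ≤
        (⋃ i ∈ I, {A : SimpleGraph (Fin n) | ∃ G' : SimpleGraph (Fin n), (∀ u v, ¬ (u ∈ i.1 ∧ v ∈ i.1) → (G'.Adj u v ↔ (chg G i.2).Adj u v)) ∧ bad G' A}).ncard :=
      Set.ncard_le_ncard hsub (Set.toFinite _)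
    refine h5.trans (le_trans (Finset.set_ncard_biUnion_le _ _) ?_)
    refine (Finset.sum_le_card_nsmul _ _ _ hT).trans ?_
    rw [smul_eq_mul]
    calc I.card * n ^ (C' * (r + Nat.log 2 n)) ≤ n ^ (5 * r) * n ^ (C' * (r + Nat.log 2 n)) := Nat.mul_le_mul_right _ hIc
      _ = n ^ (5 * r + C' * (r + Nat.log 2 n)) := (pow_add _ _ _).symm
      _ ≤ n ^ ((C' + 5) * (r + Nat.log 2 n)) := Nat.pow_le_pow_right (by omega) (by nlinarith [Nat.zero_le (Nat.log 2 n)])

end QLE
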