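import Pool.Agent.Lib.MP_0087d5_lcQE.VDefs

/-!
# Leaf V0 (easy+): the first weights as integers

Proof. As leaf S0 of MP_0087d5_lcQN (`zk_cast`, `nr_eq`). `rz_eq` (MT/CB): `rz q a = ((a : ℤ) : ZMod q).val`; `cast_zf` (MT/CB), `Int.cast_sum`, `pow_add`; `wk D s t u = s u + ∑ i ∈ range t, s (D + 2 i + 1) * s (D + 2 i) ^ u`; the sum over `u : Fin N` of `cnd (u < d) … 0` is the sum over `Fin d` as `d ≤ N` (the additive version of `S0_prod` there).
Second statement: `ZMod.val_lt` (bounds `vn < p`, `x < N`).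
-/

set_option autoImplicit false
set_option linter.all false

namespace QLE

open Finset Pool.Agent Pool.Agent.PMNC MTC LIN PRS QRB QSR QLN

private theorem V0_sum {M : Type*} [AddCommMonoid M] {N R : ℕ} (h : R ≤ N) (F : ℕ → M) :
    ∑ j : Fin N, (if (j : ℕ) < R then F j else 0) = ∑ j : Fin R, F j := by
  rw [Fin.sum_univ_eq_sum_range (fun j => if j < R then F j else 0) N, Fin.sum_univ_eq_sum_range F R, ← Finset.sum_filter]
  refine Finset.sum_congr ?_ fun _ _ => rfl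
  ext j
  rw [Finset.mem_filter, Finset.mem_range, Finset.mem_range]
  omega

private theorem V0_zd {N q : ℕ} (X : SimpleGraph (Fin N)) (g y t d u : ℕ) :
    ((zd X (g : ℤ) (y : ℤ) t d u : ℤ) : ZMod q) = wk d (fun j => fG q X (((g : ℕ) : ZMod q) ^ j * ((y : ℕ) : ZMod q))) t u := by
  unfold zd wk
  rw [Int.cast_add, Int.cast_sum]
  congr 1
  · rw [cast_zf]
    push_cast
    rfl
  · refine Finset.sum_congr rfl fun s _ => ?_
    rw [Int.cast_mul, Int.cast_pow, cast_zf, cast_zf]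
    push_cast
    rw [← pow_add, ← pow_add, add_assoc]

theorem om_eq {S : ℕ → Type} [Env S] [∀ n, Fintype (S n)] {N : ℕ} (X : SimpleGraph (Fin N)) (π : Pw S N) [Fact (nv π.1).Prime] (hd : nv π.2.2.2.2 ≤ N) (x y : Fin N) :
    Om X π x y = om (pt (nv π.2.2.2.2) X ((nv π.2.1 : ℕ) : ZMod (nv π.1)) ((nv π.2.2.1 : ℕ) : ZMod (nv π.1)) (nv π.2.2.2.1)) x y := by
  have : NeZero (nv π.1) := ⟨(Fact.out : (nv π.1).Prime).ne_zero⟩
  have key : ∀ x : Fin N, vn X π x = (rho (pt (nv π.2.2.2.2) X ((nv π.2.1 : ℕ) : ZMod (nv π.1)) ((nv π.2.2.1 : ℕ) : ZMod (nv π.1)) (nv π.2.2.2.1)) x).val := by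
    intro x
    unfold vn rho
    rw [rz_eq]
    congr 1
    rw [Int.cast_sum]
    have h1 : ∀ u : Fin N, ((cnd ((u : ℕ) < nv π.2.2.2.2) (zd X (nv π.2.1) (nv π.2.2.1) (nv π.2.2.2.1) (nv π.2.2.2.2) u * ((x : ℕ) : ℤ) ^ (u : ℕ)) 0 : ℤ) : ZMod (nv π.1)) =
        if (u : ℕ) < nv π.2.2.2.2 then (fun u : ℕ => wk (nv π.2.2.2.2) (fun j => fG (nv π.1) X (((nv π.2.1 : ℕ) : ZMod (nv π.1)) ^ j * ((nv π.2.2.1 : ℕ) : ZMod (nv π.1)))) (nv π.2.2.2.1) u *
          ((x : ℕ) : ZMod (nv π.1)) ^ u) u else 0 := by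
      intro u
      by_cases hu : (u : ℕ) < nv π.2.2.2.2
      · rw [cnd_pos hu, if_pos hu, Int.cast_mul, Int.cast_pow, V0_zd]
        push_cast
        rfl
      · rw [cnd_neg hu, if_neg hu, Int.cast_zero]
    rw [Finset.sum_congr rfl fun u _ => h1 u]
    exact V0_sum hd (fun u : ℕ => wk (nv π.2.2.2.2) (fun j => fG (nv π.1) X (((nv π.2.1 : ℕ) : ZMod (nv π.1)) ^ j * ((nv π.2.2.1 : ℕ) : ZMod (nv π.1)))) (nv π.2.2.2.1) u *
          ((x : ℕ) : ZMod (nv π.1)) ^ u)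
  unfold Om om w2
  rw [key x, key y]

theorem om_le {N p d : ℕ} [NeZero p] (ζ : Fin d → ZMod p) (x y : Fin N) : om ζ x y ≤ 2 * (p * N) ∧ om ζ x y = om ζ y x := by
  unfold om w2
  constructor
  · have h1 := (ZMod.val_lt (rho ζ x : ZMod p)).le
    have h2 := (ZMod.val_lt (rho ζ y : ZMod p)).le
    have h3 : (y : ℕ) ≤ N := y.2.le
    have h4 : (x : ℕ) ≤ N := x.2.le
    have h5 := Nat.mul_le_mul h1 h3
    have h6 := Nat.mul_le_mul h2 h4
    omega
  · exact add_comm _ _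

end QLE
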