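import Pool.Agent.Lib.MP_0087d5_lcQE.VDefs
import Pool.Agent.Lib.MP_0087d5_lcQN.S4
import Pool.Agent.Lib.MP_0087d5_lc.ZNum

/-!
# Leaf V1 (medium): correctness of the preliminary round

Proof. Let `ω = Om X π` (symmetric), `U = UU (nv κ.1) (nv κ.2.1) eid 0 ω`. As `nv κ.1 = 1`, `U x y = ω x y + 0 ^ eid x y % m`, so `U x y = ω x y` for `x ≠ y` (`eid x y ≠ 0` for `x ≠ y`: `eid x y = nv (x, y)` or `nv (y, x)`, and `(0, 0)` is the only pair with `nv = 0`), and `U x y ≤ ω x y + 1 ≤ M`. The graph `T.Adj` is irreflexive, so perfect matchings have no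
fixed points, `tw U f = tw ω f`, `LW`, `HH` and `GoodY` (for `Am … v w`, `um … v w`; the diagonal entries of the matrix are `0`) are the same for `U` and `ω`.
`P = P0 X T κ π` is `Rep P T.Adj ω` (`nv z < q`, `q ∣ nv z - ω x y`, `ω x y < q` give `nv z = ω x y`). One round: this is the private lemma `S4_step` in leaf S4 of MP_0087d5_lcQN (copy it; it needs `S4_Am`, `S4_um` too) with `i` the vertex `0`, `r = 0` (`nr X κ i = nv κ.2.2.2.2.2.2 = 0` for `(i : ℕ) = 0`, `rz m (0 ^ e) = 0 ^ e % m`),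
`A = T.Adj`, `ρ = ω`: `Rep (StC X κ i P) (HH T.Adj U) (rkn (HH T.Adj U) U)`. Its conditions `hgA`, `hgB`: from `hg` by `good_diag`, `good_am` (leaf E1 of MP_0087d5_lcQN) as in the case `i = 0` of the proof of `out_complete` (leaf S4 of MP_0087d5_lcQN).
So `(∃ z, StC X κ i P x y z) ↔ HH T.Adj U x y` (the rank is at most `N` (`stp_ok`), a value of `nv`: `nv_surj`). `HH` is symmetric (`stp_ok`, leaf K1) and contained in `T.Adj`.
-/

set_option autoImplicit false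
set_option linter.all false

namespace QLE

open Finset Pool.Agent Pool.Agent.PMNC MTC LIN PRS QRB QSR QLN

private theorem V1_Am {V : Type} (A : V → V → Prop) (x : V) : Am A x x = A := by
  funext a b
  apply propext
  constructor
  · rintro (⟨_, h⟩ | ⟨h, _⟩)
    · exact h
    · exact absurd rfl h
  · exact fun h => Or.inl ⟨rfl, h⟩

private theorem V1_um {V : Type} [DecidableEq V] (u : V → V → ℕ) (x : V) : um u x x = u := by
  funext a b
  unfold um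
  rw [if_neg (fun h => h.1 rfl)]

/-- one round, from the two goodness conditions -/
private theorem V1_step {S : ℕ → Type} [Env S] [∀ n, Fintype (S n)] {N : ℕ} (hN : 2 ≤ N) (X : SimpleGraph (Fin N)) (κ : Pq S N) [Fact (nv κ.2.2.1).Prime]
    (hm0 : ¬ nv κ.2.1 = 0) (hq0 : ¬ nv κ.2.2.1 = 0) (i : Fin N) (P : Fin N → Fin N → S N → Prop) (A : Fin N → Fin N → Prop) (hs : ∀ x y, A x y → A y x) (hi : ∀ x, ¬ A x x)
    (hPM : ∃ f, MTC.IsPM A f) (ρ : Fin N → Fin N → ℕ) (hρs : ∀ x y, ρ x y = ρ y x) (hP : Rep P A ρ) (hρ : ∀ x y, ∃ z : S N, nv z = ρ x y)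
    (r : ℕ) (hr : ∀ x y : Fin N, rz (nv κ.2.1) (nr X κ i ^ eid x y) = r ^ eid x y % nv κ.2.1) (M : ℕ) (U : Fin N → Fin N → ℕ)
    (hU : U = UU (nv κ.1) (nv κ.2.1) (fun x y => eid x y) r ρ)
    (hM : ∀ x y, U x y ≤ M) (hMp : N * M < nv κ.2.2.1 - 1) (hB : 4 * (N * M + M + 1) < N ^ dim S)
    (hgA : ∀ v w, (v = w ∨ HH A U v w) → GoodY (nv κ.2.2.1) (Am A v w) (um U v w) (fun x y => ((QLN.zY X κ x y : ℤ) : ZMod (nv κ.2.2.1))))
    (hgB : ∀ v w, GoodY (nv κ.2.2.1) (Am (HH A U) v w) (um U v w) (fun x y => ((QLN.zY X κ x y : ℤ) : ZMod (nv κ.2.2.1)))) :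
    Rep (QLN.StC X κ i P) (HH A U) (rkn (HH A U) U) := by
  subst hU
  have hUs : ∀ x y : Fin N, UU (nv κ.1) (nv κ.2.1) (fun x y => eid x y) r ρ x y = UU (nv κ.1) (nv κ.2.1) (fun x y => eid x y) r ρ y x := by
    intro x y
    unfold UU
    dsimp only
    rw [hρs x y, eid_comm x y]
  obtain ⟨g1, g2, g3, g4, g5, g6, g7, g8⟩ := stp_ok A hs hi _ hUs hPM
  refine step_rep hN X κ hm0 hq0 i P A hs hi hPM ρ hρs hP hρ r hr M hM hMp hB ?_ ?_ ?_ ?_
  · intro x c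
    have h1 := lwc_iff X κ hm0 i P A hs hi ρ hρs hP hρ r hr x x M hM hMp (hgA x x (Or.inl rfl)) c
    rw [V1_Am, V1_um] at h1
    exact h1
  · intro x y hxy c
    exact lwc_iff X κ hm0 i P A hs hi ρ hρs hP hρ r hr x y M hM hMp (hgA x y (Or.inr hxy)) c
  · intro x y c h
    exact lwc_sound X κ hm0 i P A hs hi ρ hρs hP hρ r hr x y M hM hMp c h
  · intro P' hP' v w c
    exact lwc_iff X κ hm0 i P' _ g3 (fun x h => hi x (g2 x x h)) ρ hρs hP' hρ r hr v w M hM hMp (hgB v w) c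

private theorem V1_eid {N : ℕ} {x y : Fin N} (h : x ≠ y) : eid x y ≠ 0 := by
  rw [eid_eq]
  intro h0
  apply h
  have h1 : ((max x y : Fin N) : ℕ) = 0 := by omega
  have h2 : x ≤ max x y := le_max_left _ _
  have h3 : y ≤ max x y := le_max_right _ _
  rw [Fin.le_def] at h2 h3
  apply Fin.ext
  omega

private theorem V1_amirr {N : ℕ} {A : Fin N → Fin N → Prop} (hi : ∀ x, ¬ A x x) (v w x : Fin N) : ¬ Am A v w x x := by
  rintro (⟨_, h⟩ | ⟨hvw, ⟨h, _⟩ | ⟨h1, h2⟩ | ⟨h1, h2⟩⟩)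
  · exact hi x h
  · exact hi x h
  · exact hvw (h1.symm.trans h2)
  · exact hvw (h2.symm.trans h1)

private theorem V1_tw {N : ℕ} {A : Fin N → Fin N → Prop} (hi : ∀ x, ¬ A x x) {u ω : Fin N → Fin N → ℕ} (h : ∀ x y, x ≠ y → u x y = ω x y)
    {f : Fin N → Fin N} (hf : MTC.IsPM A f) : MTC.tw u f = MTC.tw ω f := by
  unfold MTC.tw
  refine Finset.sum_congr rfl fun x _ => h x (f x) fun h0 => ?_
  have h1 := hf.2 x
  rw [← h0] at h1
  exact hi x h1

private theorem V1_LW {N : ℕ} {A : Fin N → Fin N → Prop} (hi : ∀ x, ¬ A x x) {u ω : Fin N → Fin N → ℕ} (h : ∀ x y, x ≠ y → u x y = ω x y) (c : ℕ) :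
    LW A u c ↔ LW A ω c := by
  constructor
  · rintro ⟨⟨f, hf, hc⟩, h2⟩
    refine ⟨⟨f, hf, by rw [← V1_tw hi h hf]; exact hc⟩, fun g hg => ?_⟩
    rw [← V1_tw hi h hg]
    exact h2 g hg
  · rintro ⟨⟨f, hf, hc⟩, h2⟩
    refine ⟨⟨f, hf, by rw [V1_tw hi h hf]; exact hc⟩, fun g hg => ?_⟩
    rw [V1_tw hi h hg]
    exact h2 g hg

private theorem V1_umo {N : ℕ} {u ω : Fin N → Fin N → ℕ} (h : ∀ x y, x ≠ y → u x y = ω x y) (v w x y : Fin N) (hxy : x ≠ y) :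
    um u v w x y = um ω v w x y := by
  unfold um
  rw [h x y hxy]

private theorem V1_HH {N : ℕ} {A : Fin N → Fin N → Prop} (hi : ∀ x, ¬ A x x) {u ω : Fin N → Fin N → ℕ} (h : ∀ x y, x ≠ y → u x y = ω x y) :
    HH A u = HH A ω := by
  funext x y
  apply propext
  unfold HH
  refine and_congr_right fun hA => ?_
  have hxy : x ≠ y := by
    rintro rfl
    exact hi x hA
  refine exists_congr fun c => exists_congr fun c0 => ?_
  rw [V1_LW (V1_amirr hi x y) (V1_umo h x y), V1_LW hi h, h x y hxy]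

private theorem V1_good {N p : ℕ} {A : Fin N → Fin N → Prop} (hi : ∀ x, ¬ A x x) {u ω : Fin N → Fin N → ℕ} (h : ∀ x y, x ≠ y → u x y = ω x y)
    (Y : Fin N → Fin N → ZMod p) (hg : GoodY p A ω Y) : GoodY p A u Y := by
  intro c hc
  have h1 := hg c ((V1_LW hi h c).1 hc)
  have h2 : Pool.Agent.FRC.Uni.wm (bY p A Y) u = Pool.Agent.FRC.Uni.wm (bY p A Y) ω := by
    unfold Pool.Agent.FRC.Uni.wm
    funext x y
    rw [Matrix.of_apply, Matrix.of_apply]
    by_cases hxy : x = y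
    · subst hxy
      have h3 : bY p A Y x x = 0 := by
        unfold bY zBr
        rw [cnd_neg (hi x), Int.cast_zero, zero_mul]
      rw [h3, Polynomial.C_0, zero_mul, zero_mul]
    · rw [h x y hxy]
  rw [h2]
  exact h1

private theorem V1_rz (m e : ℕ) : rz m ((0 : ℤ) ^ e) = 0 ^ e % m := by
  unfold rz
  have h1 : ((0 : ℤ) ^ e) = ((0 ^ e : ℕ) : ℤ) := by
    rw [Nat.cast_pow, Nat.cast_zero]
  rw [h1, ← Int.natCast_mod, Int.toNat_natCast]

private theorem V1_le1 (m e : ℕ) : 0 ^ e % m ≤ 1 := by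
  refine (Nat.mod_le _ _).trans ?_
  rcases Nat.eq_zero_or_pos e with h | h
  · rw [h, pow_zero]
  · rw [Nat.zero_pow h]
    exact Nat.zero_le _

theorem h1_eq {S : ℕ → Type} [Env S] [∀ n, Fintype (S n)] {N : ℕ} (hN : 2 ≤ N) (X T : SimpleGraph (Fin N)) (κ : Pq S N) (π : Pw S N)
    (hm : (nv κ.2.1).Prime) (hp : (nv κ.2.2.1).Prime) (hK : nv κ.1 = 1) (hr0 : nv κ.2.2.2.2.2.2 = 0) (hπ : ¬ nv π.1 = 0) (M : ℕ)
    (hM : ∀ x y : Fin N, Om X π x y + 1 ≤ M) (hNM : N ≤ M) (hMp : N * M < nv κ.2.2.1 - 1) (hB : 4 * (N * M + M + 1) < N ^ dim S) (hT : ∃ f, MTC.IsPM T.Adj f)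
    (hg : ∀ v w : Fin N, GoodY (nv κ.2.2.1) (Am (HH T.Adj (Om X π)) v w) (um (Om X π) v w) (fun x y => ((QLN.zY X κ x y : ℤ) : ZMod (nv κ.2.2.1)))) (x y : Fin N) :
    (H1 X T κ π).Adj x y ↔ HH T.Adj (Om X π) x y := by
  haveI : Fact (nv κ.2.2.1).Prime := ⟨hp⟩
  have hm0 : ¬ nv κ.2.1 = 0 := hm.pos.ne'
  have hq0 : ¬ nv κ.2.2.1 = 0 := hp.pos.ne'
  have hTs : ∀ x y, T.Adj x y → T.Adj y x := fun x y h => h.symm
  have hTi : ∀ x, ¬ T.Adj x x := fun x h => SimpleGraph.irrefl T h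
  have hωs : ∀ x y, Om X π x y = Om X π y x := by
    intro x y
    unfold Om
    exact Nat.add_comm _ _
  have hMN : M ≤ N * M := Nat.le_mul_of_pos_left M (by omega)
  have hY : ∀ x y : Fin N, (fun x y => ((QLN.zY X κ x y : ℤ) : ZMod (nv κ.2.2.1))) x y = (fun x y => ((QLN.zY X κ x y : ℤ) : ZMod (nv κ.2.2.1))) y x := by
    intro x y
    show ((QLN.zY X κ x y : ℤ) : ZMod (nv κ.2.2.1)) = ((QLN.zY X κ y x : ℤ) : ZMod (nv κ.2.2.1))
    rw [zY_symm]
  obtain ⟨U, hU⟩ : ∃ U, U = UU (nv κ.1) (nv κ.2.1) (fun x y : Fin N => eid x y) 0 (Om X π) := ⟨_, rfl⟩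
  have hUv : ∀ x y, U x y = Om X π x y + 0 ^ eid x y % nv κ.2.1 := by
    intro x y
    rw [hU]
    unfold UU
    rw [hK, one_mul]
  have hUω : ∀ x y, x ≠ y → U x y = Om X π x y := by
    intro x y hxy
    rw [hUv, Nat.zero_pow (Nat.pos_of_ne_zero (V1_eid hxy)), Nat.zero_mod, Nat.add_zero]
  have hUM : ∀ x y, U x y ≤ M := by
    intro x y
    rw [hUv]
    have h1 := hM x y
    have h2 := V1_le1 (nv κ.2.1) (eid x y)
    omega
  have hUs : ∀ x y, U x y = U y x := by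
    intro x y
    rw [hUv, hUv, hωs x y, eid_comm x y]
  have hHH : HH T.Adj U = HH T.Adj (Om X π) := V1_HH hTi hUω
  obtain ⟨g1, g2, g3, g4, g5, g6, g7, g8⟩ := stp_ok T.Adj hTs hTi U hUs hT
  have hHi : ∀ x, ¬ HH T.Adj U x x := fun x h => hTi x (g2 x x h)
  have hgB : ∀ v w : Fin N, GoodY (nv κ.2.2.1) (Am (HH T.Adj U) v w) (um U v w) (fun x y => ((QLN.zY X κ x y : ℤ) : ZMod (nv κ.2.2.1))) := by
    intro v w
    refine V1_good (V1_amirr hHi v w) (V1_umo hUω v w) _ ?_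
    rw [hHH]
    exact hg v w
  have hgA : ∀ v w : Fin N, (v = w ∨ HH T.Adj U v w) →
      GoodY (nv κ.2.2.1) (Am T.Adj v w) (um U v w) (fun x y => ((QLN.zY X κ x y : ℤ) : ZMod (nv κ.2.2.1))) := by
    intro v w hvw
    have h' := hgB v w
    rcases hvw with hvw | hvw
    · subst hvw
      rw [V1_Am, V1_um] at h' ⊢
      exact good_diag T.Adj hTs hTi U hUs hT _ hY h'
    · exact good_am T.Adj hTs hTi U hUs hT _ hY v w hvw h'
  have hP : Rep (P0 X T κ π) T.Adj (Om X π) := by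
    intro x y z
    constructor
    · rintro ⟨h1, _, _, h2, h3⟩
      refine ⟨h1, ?_⟩
      have h4 := hM x y
      have h5 : ((nv z : ℕ) : ℤ) - ((Om X π x y : ℕ) : ℤ) = 0 := by
        refine Int.eq_zero_of_abs_lt_dvd h3 ?_
        rw [abs_lt]
        constructor <;> omega
      omega
    · rintro ⟨h1, h2⟩
      have h4 := hM x y
      refine ⟨h1, hπ, hq0, ?_, ?_⟩
      · rw [h2]
        omega
      · rw [h2, sub_self]
        exact dvd_zero _
  have hρ : ∀ x y, ∃ z : S N, nv z = Om X π x y := by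
    intro x y
    apply nv_surj
    have h4 := hM x y
    omega
  have hnr : ∀ i : Fin N, (i : ℕ) = 0 → nr X κ i = 0 := by
    intro i hi
    unfold nr
    rw [cnd_pos hi, hr0, Nat.cast_zero]
  have hstep : ∀ i : Fin N, (i : ℕ) = 0 → Rep (QLN.StC X κ i (P0 X T κ π)) (HH T.Adj U) (rkn (HH T.Adj U) U) := by
    intro i hi
    refine V1_step hN X κ hm0 hq0 i _ T.Adj hTs hTi hT (Om X π) hωs hP hρ 0 ?_ M U hU hUM hMp hB hgA hgB
    intro x y
    rw [hnr i hi, V1_rz]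
  have hval : ∀ x y, ∃ z : S N, nv z = rkn (HH T.Adj U) U x y := by
    intro x y
    apply nv_surj
    have h1 := g7 x y
    rw [Fintype.card_fin] at h1
    omega
  rw [← hHH]
  constructor
  · rintro ⟨_, i, hi, ⟨z, hz⟩, _⟩
    exact ((hstep i hi x y z).1 hz).1
  · intro h
    obtain ⟨z, hz⟩ := hval x y
    obtain ⟨z', hz'⟩ := hval y x
    refine ⟨g2 x y h, ⟨0, by omega⟩, rfl, ⟨z, (hstep _ rfl x y z).2 ⟨h, hz⟩⟩, ⟨z', (hstep _ rfl y x z').2 ⟨g3 x y h, hz'⟩⟩⟩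

end QLE
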