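import Pool.Agent.Lib.MP_0087d5_lcQE.VDefs
import Pool.Agent.Lib.MP_0087d5_lcQN.C1

/-!
# Leaf V2 (medium-): few bad points for the preliminary round

Proof. For each pair `v w` the condition `GoodY` is of the form of `gy_count` (leaf C1 of MP_0087d5_lcQN) with `A = Am H v w`, `ω = um ω v w` (symmetric, irreflexive; see `C2_test` in leaf C2 there). `YZ R m z` depends on the coordinates `R + j`, `2 R + j` only: `C2_fub` (private in leaf C2 of MP_0087d5_lcQN; copy it with `C2_a`, `C2_b`)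
gives the count of the `z : Fin (3 R) → ZMod q`. Union over the `N * N` pairs.
-/

set_option autoImplicit false
set_option linter.all false

namespace QLE

open Finset Pool.Agent Pool.Agent.PMNC MTC LIN PRS QRB QSR QLN

/-- the first third of the point -/
private def V2_a {D q : ℕ} (R : ℕ) (z : Fin D → ZMod q) (j : Fin R) : ZMod q := MTC.ext z (j : ℕ)

/-- the other two thirds of the point -/
private def V2_b {D q : ℕ} (R : ℕ) (z : Fin D → ZMod q) (j : Fin R) : ZMod q × ZMod q := (MTC.ext z (R + (j : ℕ)), MTC.ext z (2 * R + (j : ℕ)))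

/-- the sum over the first third -/
private theorem V2_fub {R D q M : ℕ} [Fact q.Prime] (hD : D = 3 * R) (Z : (Fin R → ZMod q × ZMod q) → Prop)
    (h : Nat.card {y : Fin R → ZMod q × ZMod q // Z y} * q ≤ M * q ^ (2 * R)) :
    Nat.card {z : Fin D → ZMod q // Z (V2_b R z)} * q ≤ M * q ^ D := by
  classical
  have hinj : Function.Injective (fun z : Fin D → ZMod q => (V2_a R z, V2_b R z)) := by
    intro z z' hzz
    have h1 : V2_a R z = V2_a R z' := congrArg Prod.fst hzz
    have h2 : V2_b R z = V2_b R z' := congrArg Prod.snd hzz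
    have key : ∀ j : ℕ, j < D → MTC.ext z j = MTC.ext z' j := by
      intro j hj
      rcases lt_or_ge j R with h3 | h3
      · exact congrFun h1 ⟨j, h3⟩
      · rcases lt_or_ge j (2 * R) with h4 | h4
        · have h5 := congrArg Prod.fst (congrFun h2 ⟨j - R, by omega⟩)
          have h6 : R + (j - R) = j := by omega
          simp only [V2_b] at h5
          rw [h6] at h5
          exact h5
        · have h5 := congrArg Prod.snd (congrFun h2 ⟨j - 2 * R, by omega⟩)
          have h6 : 2 * R + (j - 2 * R) = j := by omega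
          simp only [V2_b] at h5
          rw [h6] at h5
          exact h5
    funext j
    have h7 := key j j.2
    unfold MTC.ext at h7
    rw [dif_pos j.2, dif_pos j.2] at h7
    exact h7
  have h1 : Nat.card {z : Fin D → ZMod q // Z (V2_b R z)} ≤
      Nat.card {x : (Fin R → ZMod q) × (Fin R → ZMod q × ZMod q) // Z x.2} := by
    refine Nat.card_le_card_of_injective (fun z => ⟨(V2_a R z.1, V2_b R z.1), z.2⟩) ?_
    intro z z' hzz
    apply Subtype.ext
    exact hinj (congrArg Subtype.val hzz)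
  have h2 : Nat.card {x : (Fin R → ZMod q) × (Fin R → ZMod q × ZMod q) // Z x.2} =
      ∑ ρ : Fin R → ZMod q, Nat.card {y : Fin R → ZMod q × ZMod q // Z y} := by
    rw [Nat.card_eq_fintype_card, Fintype.card_subtype, Finset.card_filter, Fintype.sum_prod_type]
    refine Finset.sum_congr rfl fun ρ _ => ?_
    rw [Nat.card_eq_fintype_card, Fintype.card_subtype, Finset.card_filter]
  rw [h2] at h1
  refine (Nat.mul_le_mul_right q h1).trans ?_
  rw [Finset.sum_mul]
  refine (Finset.sum_le_sum fun ρ _ => h).trans ?_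
  rw [Finset.sum_const, Finset.card_univ, Fintype.card_fun, Fintype.card_fin, ZMod.card, smul_eq_mul, hD]
  refine le_of_eq ?_
  have h3 : 3 * R = R + 2 * R := by omega
  rw [h3, pow_add]
  ring

/-- few bad points for one pair -/
private theorem V2_test {C : ℕ} (hW : IsoMostW C) {N R D m q : ℕ} [Fact q.Prime] (hN : 2 ≤ N) (hR : Nat.clog 2 N ≤ R) (hD : D = 3 * R) (hm : m.Prime)
    (H : Fin N → Fin N → Prop) (hs : ∀ x y, H x y → H y x) (hi : ∀ x, ¬ H x x) (ω : Fin N → Fin N → ℕ) (hω : ∀ x y, ω x y = ω y x) (v w : Fin N) :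
    Nat.card {z : Fin D → ZMod q // ¬ GoodY q (Am H v w) (um ω v w) (YZ R m z)} * q ≤
      (R * N ^ C * (q / m + 1) + N * (R * m)) * q ^ D := by
  have h0 := V2_fub (R := R) (D := D) (q := q) (M := R * N ^ C * (q / m + 1) + N * (R * m)) hD
    (fun y => ¬ GoodY q (Am H v w) (um ω v w) (fun x x' => ∏ j, (y j).2 ^ ((y j).1.val ^ eid x x' % m))) (by
      refine gy_count hW hN hR hm _ ?_ ?_ _ ?_
      · intro x y hxy
        rcases hxy with ⟨h1, h2⟩ | ⟨h1, ⟨h2, h3, h4, h5, h6⟩ | ⟨h2, h3⟩ | ⟨h2, h3⟩⟩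
        · exact Or.inl ⟨h1, hs _ _ h2⟩
        · exact Or.inr ⟨h1, Or.inl ⟨hs _ _ h2, h5, h6, h3, h4⟩⟩
        · exact Or.inr ⟨h1, Or.inr (Or.inr ⟨h3, h2⟩)⟩
        · exact Or.inr ⟨h1, Or.inr (Or.inl ⟨h3, h2⟩)⟩
      · intro x hxy
        rcases hxy with ⟨h1, h2⟩ | ⟨h1, ⟨h2, h3, h4, h5, h6⟩ | ⟨h2, h3⟩ | ⟨h2, h3⟩⟩
        · exact hi x h2
        · exact hi x h2
        · exact h1 (h2.symm.trans h3)
        · exact h1 (h3.symm.trans h2)
      · intro x y
        unfold um
        have h1 : (v ≠ w ∧ ((x = v ∧ y = w) ∨ (x = w ∧ y = v))) ↔ (v ≠ w ∧ ((y = v ∧ x = w) ∨ (y = w ∧ x = v))) := by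
          constructor
          · rintro ⟨h1, ⟨h2, h3⟩ | ⟨h2, h3⟩⟩
            · exact ⟨h1, Or.inr ⟨h3, h2⟩⟩
            · exact ⟨h1, Or.inl ⟨h3, h2⟩⟩
          · rintro ⟨h1, ⟨h2, h3⟩ | ⟨h2, h3⟩⟩
            · exact ⟨h1, Or.inr ⟨h3, h2⟩⟩
            · exact ⟨h1, Or.inl ⟨h3, h2⟩⟩
        by_cases h3 : (v ≠ w ∧ ((x = v ∧ y = w) ∨ (x = w ∧ y = v)))
        · rw [if_pos h3, if_pos (h1.1 h3)]
        · rw [if_neg h3, if_neg (fun h4 => h3 (h1.2 h4))]
          exact hω x y)
  exact h0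

theorem badh_count {C : ℕ} (hW : IsoMostW C) {N R D m q : ℕ} [Fact q.Prime] (hN : 2 ≤ N) (hR : Nat.clog 2 N ≤ R) (hD : D = 3 * R) (hm : m.Prime)
    (H : Fin N → Fin N → Prop) (hs : ∀ x y, H x y → H y x) (hi : ∀ x, ¬ H x x) (ω : Fin N → Fin N → ℕ) (hω : ∀ x y, ω x y = ω y x) :
    Nat.card {z : Fin D → ZMod q // ¬ GoodH R m H ω z} * q ≤ N * N * (R * N ^ C * (q / m + 1) + N * (R * m)) * q ^ D := by
  classical
  have h0 : ∀ x : Fin N × Fin N, (Finset.univ.filter fun z : Fin D → ZMod q => ¬ GoodY q (Am H x.1 x.2) (um ω x.1 x.2) (YZ R m z)).card * q ≤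
      (R * N ^ C * (q / m + 1) + N * (R * m)) * q ^ D := by
    intro x
    have h1 := V2_test hW hN hR hD hm H hs hi ω hω x.1 x.2 (q := q)
    rwa [Nat.card_eq_fintype_card, Fintype.card_subtype] at h1
  rw [Nat.card_eq_fintype_card, Fintype.card_subtype]
  have h2 : (Finset.univ.filter fun z : Fin D → ZMod q => ¬ GoodH R m H ω z) ⊆ (Finset.univ : Finset (Fin N × Fin N)).biUnion fun x =>
      Finset.univ.filter fun z : Fin D → ZMod q => ¬ GoodY q (Am H x.1 x.2) (um ω x.1 x.2) (YZ R m z) := by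
    intro z hz
    by_contra h3
    refine (Finset.mem_filter.1 hz).2 fun v w => ?_
    by_contra h4
    exact h3 (Finset.mem_biUnion.2 ⟨(v, w), Finset.mem_univ _, Finset.mem_filter.2 ⟨Finset.mem_univ _, h4⟩⟩)
  refine (Nat.mul_le_mul_right q ((Finset.card_le_card h2).trans Finset.card_biUnion_le)).trans ?_
  rw [Finset.sum_mul]
  refine (Finset.sum_le_sum fun x _ => h0 x).trans ?_
  rw [Finset.sum_const, Finset.card_univ, Fintype.card_prod, Fintype.card_fin, smul_eq_mul]
  refine le_of_eq ?_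
  ring

end QLE
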