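import Pool.Agent.Lib.MP_0087d5_lcQE.V1

/-!
# Leaf V3 (medium-): a good point gives the graph of the preliminary round

Proof. As leaf C4 of MP_0087d5_lcQN (`out_of_point`): `κ = (1, m, q, g.val, y.val, t, 0)` in `S N` (`nv_surj`), `h1_eq` (leaf V1); `zY_cast` (leaf S0 there): the function `fun x y => ((zY X κ x y : ℤ) : ZMod q)` is `YZ (4 L) m (pt …)`.
-/

set_option autoImplicit false
set_option linter.all false

namespace QLE

open Finset Pool.Agent Pool.Agent.PMNC MTC LIN PRS QRB QSR QLN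

theorem h1_of_point {S : ℕ → Type} [Env S] [∀ n, Fintype (S n)] {N m q M : ℕ} [Fact q.Prime] (hN : 2 ≤ N) (h12 : 12 * Nat.log 2 N ≤ N) (hm : m.Prime)
    (hmS : m < N ^ dim S) (hqS : q < N ^ dim S) (X T : SimpleGraph (Fin N)) (π : Pw S N) (hπ : ¬ nv π.1 = 0)
    (hM : ∀ x y : Fin N, Om X π x y + 1 ≤ M) (hNM : N ≤ M) (hMp : N * M < q - 1) (hB : 4 * (N * M + M + 1) < N ^ dim S) (hT : ∃ f, MTC.IsPM T.Adj f)
    (g y : ZMod q) (t : ℕ) (ht : t < N ^ dim S)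
    (h : GoodH (4 * Nat.log 2 N) m (HH T.Adj (Om X π)) (Om X π) (pt (12 * Nat.log 2 N) X g y t)) :
    ∃ κ : Pq S N, ∀ x x', (H1 X T κ π).Adj x x' ↔ HH T.Adj (Om X π) x x' := by
  obtain ⟨sq, hsq⟩ := nv_surj (S := S) hqS
  subst hsq
  obtain ⟨sm, hsm⟩ := nv_surj (S := S) hmS
  subst hsm
  obtain ⟨st, hst⟩ := nv_surj (S := S) ht
  subst hst
  have h1 : 1 < N ^ dim S := by omega
  obtain ⟨s1, hs1⟩ := nv_surj (S := S) h1
  obtain ⟨s0, hs0⟩ := nv_surj (S := S) (lt_trans Nat.zero_lt_one h1)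
  haveI : NeZero (nv sq) := ⟨(Fact.out : (nv sq).Prime).ne_zero⟩
  obtain ⟨sg, hsg⟩ := nv_surj (S := S) (lt_trans (ZMod.val_lt g) hqS)
  obtain ⟨sy, hsy⟩ := nv_surj (S := S) (lt_trans (ZMod.val_lt y) hqS)
  have hg' : ((nv sg : ℕ) : ZMod (nv sq)) = g := by rw [hsg, ZMod.natCast_zmod_val]
  have hy' : ((nv sy : ℕ) : ZMod (nv sq)) = y := by rw [hsy, ZMod.natCast_zmod_val]
  have hzY : (fun x x' => ((QLN.zY X ((s1, (sm, (sq, (sg, (sy, (st, s0)))))) : Pq S N) x x' : ℤ) : ZMod (nv sq))) =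
      YZ (4 * Nat.log 2 N) (nv sm) (pt (12 * Nat.log 2 N) X g y (nv st)) := by
    funext x x'
    haveI : Fact (nv ((s1, (sm, (sq, (sg, (sy, (st, s0)))))) : Pq S N).2.2.1).Prime := (inferInstance : Fact (nv sq).Prime)
    have h2 := zY_cast h12 X ((s1, (sm, (sq, (sg, (sy, (st, s0)))))) : Pq S N) hm.ne_zero x x'
    refine h2.trans ?_
    show YZ (4 * Nat.log 2 N) (nv sm) (pt (12 * Nat.log 2 N) X ((nv sg : ℕ) : ZMod (nv sq)) ((nv sy : ℕ) : ZMod (nv sq)) (nv st)) x x' = _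
    rw [hg', hy']
  refine ⟨(s1, (sm, (sq, (sg, (sy, (st, s0)))))), fun x x' => ?_⟩
  refine h1_eq hN X T (s1, (sm, (sq, (sg, (sy, (st, s0)))))) π hm (Fact.out : (nv sq).Prime) hs1 hs0 hπ M hM hNM hMp hB hT ?_ x x'
  intro v w
  have h2 := h v w
  rw [← hzY] at h2
  exact h2

end QLE
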