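import Mathlib

/-!
# Leaf V5 (medium, Mathlib only): the parameters

Proof. As leaf P1 of MP_0087d5_lcQN (`params`; copy its lemmas), with `a = C + 60`, `b = 2 * a + 40`: `m` prime with `N ^ a < m ≤ 2 * N ^ a`, `q` prime with `N ^ b < q ≤ 2 * N ^ b`, `M = 2 * (N ^ 25 * N) + 1`. `par1`: `(4 * N ^ 5) ^ 4 = 256 * N ^ 20`, `Nat.exists_prime_lt_and_le_two_mul`, `512 * N ^ 20 ≤ N ^ 25` for `N ≥ 4`.
-/

set_option autoImplicit false
set_option linter.all false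

namespace QLE

private theorem V5_two (L : ℕ) (h : 7 ≤ L) : 12 * L ≤ 2 ^ L := by
  induction L, h using Nat.le_induction with
  | base => norm_num
  | succ n hn ih => rw [pow_succ]; omega

private theorem V5_log (N : ℕ) (h : 128 ≤ N) : 12 * Nat.log 2 N ≤ N := by
  have h1 : 7 ≤ Nat.log 2 N := by
    have := Nat.log_mono_right (b := 2) h
    have h2 : Nat.log 2 128 = 7 := by
      rw [show (128 : ℕ) = 2 ^ 7 by norm_num]
      exact Nat.log_pow (by norm_num) 7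
    omega
  exact (V5_two _ h1).trans (Nat.pow_log_le_self 2 (by omega))

private theorem V5_last (N C a R m q : ℕ) (hN : 128 ≤ N) (hR : R ≤ N) (ha : C + 60 ≤ a) (hm1 : N ^ a < m) (hm2 : m ≤ 2 * N ^ a) (hq : N ^ (2 * a + 40) < q) :
    N * N * (R * N ^ C * (q / m + 1) + N * (R * m)) * N ^ 14 ≤ q := by
  set Q := q / m + 1 with hQ
  have hQm : Q * N ^ a ≤ 2 * q := by
    have h1 : q / m * m ≤ q := Nat.div_mul_le_self q m
    have h2 : 2 * N ^ a ≤ N ^ (2 * a + 40) := by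
      rw [show 2 * a + 40 = a + (a + 40) by ring, pow_add, mul_comm]
      refine Nat.mul_le_mul le_rfl ?_
      exact (show 2 ≤ N by omega).trans (Nat.le_self_pow (by omega) N)
    calc Q * N ^ a ≤ Q * m := Nat.mul_le_mul le_rfl hm1.le
      _ = q / m * m + m := by rw [hQ]; ring
      _ ≤ q + q := by omega
      _ = 2 * q := by ring
  have hA : 4 * N ^ (C + 17) ≤ N ^ a := by
    calc 4 * N ^ (C + 17) ≤ N * N ^ (C + 17) := Nat.mul_le_mul (by omega) le_rfl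
      _ = N ^ (C + 18) := by ring
      _ ≤ N ^ a := Nat.pow_le_pow_right (by omega) (by omega)
  have hB : 2 * (N ^ 18 * m) ≤ q := by
    calc 2 * (N ^ 18 * m) ≤ 2 * (N ^ 18 * (2 * N ^ a)) := by gcongr
      _ = 4 * N ^ (18 + a) := by rw [pow_add]; ring
      _ ≤ N * N ^ (18 + a) := Nat.mul_le_mul (by omega) le_rfl
      _ = N ^ (19 + a) := by rw [← pow_succ']; congr 1; omega
      _ ≤ N ^ (2 * a + 40) := Nat.pow_le_pow_right (by omega) (by omega)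
      _ ≤ q := hq.le
  have hC : 2 * (Q * N ^ (C + 17)) ≤ q := by
    have h1 : Q * (4 * N ^ (C + 17)) ≤ Q * N ^ a := Nat.mul_le_mul le_rfl hA
    have h2 : 2 * (2 * (Q * N ^ (C + 17))) ≤ 2 * q := by
      calc 2 * (2 * (Q * N ^ (C + 17))) = Q * (4 * N ^ (C + 17)) := by ring
        _ ≤ 2 * q := h1.trans hQm
    omega
  have hD : N * N * (R * N ^ C * Q + N * (R * m)) * N ^ 14 ≤ N * N * (N * N ^ C * Q + N * (N * m)) * N ^ 14 := by gcongr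
  have hE : N * N * (N * N ^ C * Q + N * (N * m)) * N ^ 14 = Q * N ^ (C + 17) + N ^ 18 * m := by
    rw [pow_add]; ring
  rw [hE] at hD
  omega

theorem par1 (N : ℕ) (hN : 4 ≤ N) : ∃ p : ℕ, p.Prime ∧ (4 * N ^ 5) ^ 4 ≤ p ∧ N ^ 20 ≤ p ∧ p ≤ N ^ 25 := by
  have h1 : 1 ≤ N ^ 20 := Nat.one_le_pow _ _ (by omega)
  obtain ⟨p, hp, hp1, hp2⟩ := Nat.exists_prime_lt_and_le_two_mul (256 * N ^ 20) (by omega)
  have h2 : (4 * N ^ 5) ^ 4 = 256 * N ^ 20 := by ring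
  have h3 : 2 * (256 * N ^ 20) ≤ N ^ 25 := by
    calc 2 * (256 * N ^ 20) = 512 * N ^ 20 := by ring
      _ ≤ N ^ 5 * N ^ 20 := Nat.mul_le_mul ((show 512 ≤ 4 ^ 5 by norm_num).trans (Nat.pow_le_pow_left hN 5)) le_rfl
      _ = N ^ 25 := by ring
  exact ⟨p, hp, by omega, by omega, by omega⟩

theorem par2 (C : ℕ) : ∃ D N0 : ℕ, 128 ≤ N0 ∧ ∀ N : ℕ, N0 ≤ N → 12 * Nat.log 2 N ≤ N ∧ ∃ m q M : ℕ, m.Prime ∧ q.Prime ∧ 2 * (N ^ 25 * N) + 1 ≤ M ∧ N ≤ M ∧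
    N * M < q - 1 ∧ 4 * (N * M + M + 1) < N ^ D ∧ m < N ^ D ∧ q < N ^ D ∧ 24 * Nat.log 2 N < N ^ D ∧ N ^ 20 ≤ q ∧
    N * N * (4 * Nat.log 2 N * N ^ C * (q / m + 1) + N * (4 * Nat.log 2 N * m)) * N ^ 14 ≤ q := by
  refine ⟨2 * (C + 60) + 60, 128, le_rfl, fun N hN => ⟨V5_log N hN, ?_⟩⟩
  obtain ⟨a, ha⟩ : ∃ a, a = C + 60 := ⟨_, rfl⟩
  rw [← ha]
  have hN0 : 0 < N := by omega
  obtain ⟨m, hmp, hm1, hm2⟩ := Nat.exists_prime_lt_and_le_two_mul (N ^ a) (by positivity)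
  obtain ⟨q, hqp, hq1, hq2⟩ := Nat.exists_prime_lt_and_le_two_mul (N ^ (2 * a + 40)) (by positivity)
  have hpow : ∀ i j : ℕ, i ≤ j → N ^ i ≤ N ^ j := fun i j h => Nat.pow_le_pow_right hN0 h
  have hlog := V5_log N hN
  have hs : ∀ i : ℕ, 128 * N ^ i ≤ N ^ (i + 1) := fun i => by
    rw [pow_succ, mul_comm]; exact Nat.mul_le_mul le_rfl hN
  have hone : ∀ i : ℕ, 1 ≤ N ^ i := fun i => Nat.one_le_pow _ _ hN0
  have e25 : N ^ 25 * N = N ^ 26 := by ring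
  have hNM : N * (2 * (N ^ 25 * N) + 1) = 2 * N ^ 27 + N := by ring
  have h1 : N ≤ N ^ 26 := Nat.le_self_pow (by omega) N
  have e1 : 128 * N ^ 26 ≤ N ^ 27 := hs 26
  have e2 : 128 * N ^ 27 ≤ N ^ 28 := hs 27
  have e3 : 128 * N ^ 28 ≤ N ^ 29 := hs 28
  have p0 := hone 26
  have f1 := hpow 28 (2 * a + 40) (by omega)
  have f2 := hpow 29 (2 * a + 60) (by omega)
  have e5 : 128 * N ^ (2 * a + 40) ≤ N ^ (2 * a + 41) := hs (2 * a + 40)
  have f3 := hpow (2 * a + 41) (2 * a + 60) (by omega)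
  have f5 := hpow 20 (2 * a + 40) (by omega)
  have f6 := hpow a (2 * a + 40) (by omega)
  refine ⟨m, q, 2 * (N ^ 25 * N) + 1, hmp, hqp, le_rfl, ?_, ?_, ?_, ?_, ?_, ?_, by omega, ?_⟩
  · omega
  · rw [hNM]; omega
  · rw [hNM]; omega
  · omega
  · omega
  · omega
  · exact V5_last N C a (4 * Nat.log 2 N) m q hN (by omega) (by omega) hm1 hm2 hq1

end QLE
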