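import Pool.Agent.Lib.MP_0087d5_lcQE.V0
import Pool.Agent.Lib.MP_0087d5_lcQE.V2
import Pool.Agent.Lib.MP_0087d5_lcQE.V3
import Pool.Agent.Lib.MP_0087d5_lcQE.V5
import Pool.Agent.Lib.MP_0087d5_lcQN.C3
import Pool.Agent.Lib.MP_0087d5_lcQN.F0

/-!
# Leaf V4 (medium): few bad sources for the preliminary round, for one graph `H` and one weight `ω`

Proof. As leaf F2 of MP_0087d5_lcQN (`src_count`; copy `F2_gen`, `F2_num`), with `par2` (leaf V5), `badh_count` (leaf V2, `R = 4 L`, `D = 12 L`), `card_excD` (leaf C3 there), `h1_of_point` (leaf V3) and `sp_inj` (leaf F0 there). `Om (SP …) π = ω` as functions, so the point is good for `Om`; `ω ≤ 2 * (N ^ 25 * N)`.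
-/

set_option autoImplicit false
set_option linter.all false

namespace QLE

open Finset Pool.Agent Pool.Agent.PMNC MTC LIN PRS QRB QSR QLN

private theorem V4_gen (q : ℕ) [Fact q.Prime] : ∃ g : ZMod q, orderOf g = q - 1 := by
  obtain ⟨u, hu⟩ := IsCyclic.exists_generator (α := (ZMod q)ˣ)
  refine ⟨(u : ZMod q), ?_⟩
  rw [orderOf_units, orderOf_eq_card_of_forall_mem_zpowers hu, Nat.card_eq_fintype_card, ZMod.card_units]

private theorem V4_num {n D q : ℕ} (hn : 2 ≤ n) (hq : q < (n + n) ^ D) :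
    q ^ (5 * (12 * Nat.log 2 (n + n))) ≤ 2 ^ (360 * D * Nat.log 2 n ^ 2) := by
  have hL : Nat.log 2 (n + n) = Nat.log 2 n + 1 := by
    rw [← mul_two, Nat.log_mul_base (by norm_num) (by omega)]
  have hl : 1 ≤ Nat.log 2 n := Nat.log_pos (by norm_num) hn
  have h1 : n + n ≤ 2 ^ (Nat.log 2 n + 2) := by
    have h := Nat.lt_pow_succ_log_self (b := 2) (by norm_num) (n + n)
    rw [hL] at h
    exact h.le
  calc q ^ (5 * (12 * Nat.log 2 (n + n))) ≤ ((n + n) ^ D) ^ (5 * (12 * Nat.log 2 (n + n))) := Nat.pow_le_pow_left hq.le _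
    _ = (n + n) ^ (D * (5 * (12 * Nat.log 2 (n + n)))) := by rw [← pow_mul]
    _ ≤ (2 ^ (Nat.log 2 n + 2)) ^ (D * (5 * (12 * Nat.log 2 (n + n)))) := Nat.pow_le_pow_left h1 _
    _ = 2 ^ ((Nat.log 2 n + 2) * (D * (5 * (12 * Nat.log 2 (n + n))))) := by rw [← pow_mul]
    _ ≤ 2 ^ (360 * D * Nat.log 2 n ^ 2) := by
      refine Nat.pow_le_pow_right (by norm_num) ?_
      rw [hL]
      generalize Nat.log 2 n = l at *
      calc (l + 2) * (D * (5 * (12 * (l + 1)))) ≤ (3 * l) * (D * (5 * (12 * (2 * l)))) := by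
            gcongr <;> omega
        _ = 360 * D * l ^ 2 := by ring

theorem src_count1 {C : ℕ} (hW : IsoMostW C) : ∃ c n0 D : ℕ, 64 ≤ n0 ∧ ∀ (S : ℕ → Type) [Env S] [∀ n, Fintype (S n)], D ≤ dim S →
    ∀ n : ℕ, n0 ≤ n → ∀ ω : Fin (n + n) → Fin (n + n) → ℕ, (∀ x y, ω x y = ω y x) → (∀ x y, ω x y ≤ 2 * ((n + n) ^ 25 * (n + n))) →
      ∀ H : Fin (n + n) → Fin (n + n) → Prop, (∀ x y, H x y → H y x) → (∀ x, ¬ H x x) → ∀ G : SimpleGraph (Fin n),
        Nat.card {A : SimpleGraph (Fin n) // ∃ (T : SimpleGraph (Fin (n + n))) (π : Pw S (n + n)), (∃ f, MTC.IsPM T.Adj f) ∧ HH T.Adj ω = H ∧ (¬ nv π.1 = 0) ∧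
          (∀ x y, Om (SP (n + n) (pair G A)) π x y = ω x y) ∧
          ¬ ∃ κ : Pq S (n + n), ∀ x y, (H1 (SP (n + n) (pair G A)) T κ π).Adj x y ↔ H x y} ≤ 2 ^ (c * Nat.log 2 n ^ 2) := by
  classical
  obtain ⟨D, N0, hN0, hpar⟩ := par2 C
  refine ⟨360 * D, N0, D, by omega, ?_⟩
  intro S _ _ hDS n hn ω hωs hωb H hHs hHi G
  obtain ⟨h12, m, q, M, hm, hq, hM, hNM, hMp, hB, hmD, hqD, htD, hq20, hnum⟩ := hpar (n + n) (by omega)
  haveI : Fact q.Prime := ⟨hq⟩
  have hle : (n + n) ^ D ≤ (n + n) ^ dim S := Nat.pow_le_pow_right (by omega) hDS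
  obtain ⟨g, hg⟩ := V4_gen q
  have hfin := V4_num (n := n) (D := D) (q := q) (by omega) hqD
  have hL1 : 1 ≤ Nat.log 2 (n + n) := Nat.log_pos (by norm_num) (by omega)
  have hcl : Nat.clog 2 (n + n) ≤ 4 * Nat.log 2 (n + n) := by
    have h1 : Nat.clog 2 (n + n) ≤ Nat.log 2 (n + n) + 1 :=
      Nat.clog_le_of_le_pow (Nat.lt_pow_succ_log_self (b := 2) (by norm_num) (n + n)).le
    omega
  have hbz := badh_count hW (N := n + n) (R := 4 * Nat.log 2 (n + n)) (D := 12 * Nat.log 2 (n + n)) (m := m) (q := q)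
    (by omega) hcl (by ring) hm H hHs hHi ω hωs
  have hq0 : 0 < q := hq.pos
  have hBc : ∀ F : Finset (Fin (12 * Nat.log 2 (n + n)) → ZMod q), (∀ z, z ∈ F ↔ ¬ GoodH (4 * Nat.log 2 (n + n)) m H ω z) →
      F.card * (n + n) ^ 14 ≤ q ^ (12 * Nat.log 2 (n + n)) := by
    intro F hF
    rw [Nat.subtype_card F hF] at hbz
    have h1 := Nat.mul_le_mul_right ((n + n) ^ 14) hbz
    refine Nat.le_of_mul_le_mul_right (c := q) ?_ hq0
    calc F.card * (n + n) ^ 14 * q = F.card * q * (n + n) ^ 14 := by ring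
      _ ≤ _ := h1
      _ = ((n + n) * (n + n) * (4 * Nat.log 2 (n + n) * (n + n) ^ C * (q / m + 1) + (n + n) * (4 * Nat.log 2 (n + n) * m)) * (n + n) ^ 14) *
          q ^ (12 * Nat.log 2 (n + n)) := by ring
      _ ≤ q * q ^ (12 * Nat.log 2 (n + n)) := Nat.mul_le_mul_right _ hnum
      _ = q ^ (12 * Nat.log 2 (n + n)) * q := by ring
  have hcx := card_excD (N := n + n) (q := q) (D := 12 * Nat.log 2 (n + n)) (by omega) (by omega) h12 hq20 g hg
    (fun z => ¬ GoodH (4 * Nat.log 2 (n + n)) m H ω z) (hBc _ (fun z => by simp))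
  have key : ∀ F : Finset (SimpleGraph (Fin (n + n))), (∀ X : SimpleGraph (Fin (n + n)), (∀ y : ZMod q, ∀ t ≤ 2 * (12 * Nat.log 2 (n + n)),
      ¬ GoodH (4 * Nat.log 2 (n + n)) m H ω (pt (12 * Nat.log 2 (n + n)) X g y t)) → X ∈ F) →
      Nat.card {A : SimpleGraph (Fin n) // ∃ (T : SimpleGraph (Fin (n + n))) (π : Pw S (n + n)), (∃ f, MTC.IsPM T.Adj f) ∧ HH T.Adj ω = H ∧ (¬ nv π.1 = 0) ∧
          (∀ x y, Om (SP (n + n) (pair G A)) π x y = ω x y) ∧
          ¬ ∃ κ : Pq S (n + n), ∀ x y, (H1 (SP (n + n) (pair G A)) T κ π).Adj x y ↔ H x y} ≤ F.card := by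
    intro F hF
    have hmem : ∀ A : SimpleGraph (Fin n), (∃ (T : SimpleGraph (Fin (n + n))) (π : Pw S (n + n)), (∃ f, MTC.IsPM T.Adj f) ∧ HH T.Adj ω = H ∧ (¬ nv π.1 = 0) ∧
          (∀ x y, Om (SP (n + n) (pair G A)) π x y = ω x y) ∧
          ¬ ∃ κ : Pq S (n + n), ∀ x y, (H1 (SP (n + n) (pair G A)) T κ π).Adj x y ↔ H x y) → SP (n + n) (pair G A) ∈ F := by
      rintro A ⟨T, π, hT, hTH, hπ, hOm, hno⟩
      refine hF _ fun y t ht hgood => hno ?_
      have hOm' : Om (SP (n + n) (pair G A)) π = ω := by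
        funext x y
        exact hOm x y
      have hgood' : GoodH (4 * Nat.log 2 (n + n)) m (HH T.Adj (Om (SP (n + n) (pair G A)) π)) (Om (SP (n + n) (pair G A)) π)
          (pt (12 * Nat.log 2 (n + n)) (SP (n + n) (pair G A)) g y t) := by
        rw [hOm', hTH]
        exact hgood
      have hM' : ∀ x y : Fin (n + n), Om (SP (n + n) (pair G A)) π x y + 1 ≤ M := by
        intro x y
        rw [hOm x y]
        have := hωb x y
        omega
      obtain ⟨κ, hκ⟩ := h1_of_point (S := S) (N := n + n) (m := m) (q := q) (M := M) (by omega) h12 hm (by omega) (by omega)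
        (SP (n + n) (pair G A)) T π hπ hM' hNM hMp (by omega) hT g y t (by omega) hgood'
      rw [hOm', hTH] at hκ
      exact ⟨κ, hκ⟩
    rw [← Nat.card_eq_finsetCard]
    exact Nat.card_le_card_of_injective (fun A => ⟨SP (n + n) (pair G A.1), hmem A.1 A.2⟩) fun A A' h => Subtype.ext (sp_inj G G A.1 A'.1 (Subtype.ext_iff.1 h))
  refine le_trans (key _ fun X hX => ?_) (le_trans hcx.le hfin)
  simp only [Finset.mem_filter, Finset.mem_univ, true_and]
  exact hX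

end QLE
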