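import Pool.Agent.Lib.MP_0087d5_lcQE.VDefs
import Pool.Agent.Lib.MP_0087d5_lcLI.Spar

/-!
# Leaf V6 (medium-): few pairs inside `W0`, if the point is not bad for `W0`

Proof. Adapt `sparse2` (LI/Spar). The only change: `exists_core` (MT/M1) for the subset `W0`: if more than `2 * DD * W0.card` ordered pairs inside `W0` are in `H`, there is a nonempty `W ⊆ W0` such that every `x ∈ W` has more than `DD` partners in `W`. (Copy the private lemma `M1_aux` in MT/M1 with `U' ⊆ U` added to the conclusion,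
or apply `exists_core` to the relation on the subtype of the elements of `W0`.) The rest is unchanged, and gives `BadW W0 r`.
-/

set_option autoImplicit false
set_option linter.all false

namespace QLE

open Finset Pool.Agent Pool.Agent.PMNC MTC LIN PRS QRB QSR QLN

open Classical in
/-- The induction for the core, inside a set. -/
private theorem V6_aux {V : Type} [Fintype V] (H : SimpleGraph V) (d : ℕ) :
    ∀ (n : ℕ) (U : Finset V), U.card = n →
      2 * d * U.card < ((U ×ˢ U).filter fun q : V × V => H.Adj q.1 q.2).card →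
      ∃ U' : Finset V, U' ⊆ U ∧ U'.Nonempty ∧ ∀ a ∈ U', d < (U'.filter fun b => H.Adj a b).card := by
  intro n
  induction n with
  | zero =>
    intro U hU h
    rw [Finset.card_eq_zero] at hU
    subst hU
    simp at h
  | succ n ih =>
    intro U hU h
    by_cases hall : ∀ a ∈ U, d < (U.filter fun b => H.Adj a b).card
    · refine ⟨U, Finset.Subset.refl U, ?_, hall⟩
      rw [← Finset.card_pos, hU]
      exact Nat.succ_pos n
    · push Not at hall
      obtain ⟨a, ha, hda⟩ := hall
      have hc : (U.erase a).card = n := by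
        rw [Finset.card_erase_of_mem ha, hU]
        rfl
      suffices hsuf : 2 * d * (U.erase a).card <
          (((U.erase a) ×ˢ (U.erase a)).filter fun q : V × V => H.Adj q.1 q.2).card by
        obtain ⟨U', hU', h'⟩ := ih (U.erase a) hc hsuf
        exact ⟨U', hU'.trans (Finset.erase_subset a U), h'⟩
      have hsub : ((U ×ˢ U).filter fun q : V × V => H.Adj q.1 q.2) ⊆
          (((U.erase a) ×ˢ (U.erase a)).filter fun q : V × V => H.Adj q.1 q.2) ∪
            (((U.filter fun b => H.Adj a b).image fun b => (a, b)) ∪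
              ((U.filter fun b => H.Adj a b).image fun b => (b, a))) := by
        rintro ⟨x, y⟩ hq
        rw [Finset.mem_filter, Finset.mem_product] at hq
        obtain ⟨⟨hx, hy⟩, hadj⟩ := hq
        dsimp only at hx hy hadj
        rw [Finset.mem_union, Finset.mem_union]
        by_cases hxa : x = a
        · refine Or.inr (Or.inl (Finset.mem_image.2 ⟨y, Finset.mem_filter.2 ⟨hy, ?_⟩, ?_⟩))
          · rw [← hxa]
            exact hadj
          · rw [hxa]
        · by_cases hya : y = a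
          · refine Or.inr (Or.inr (Finset.mem_image.2 ⟨x, Finset.mem_filter.2 ⟨hx, ?_⟩, ?_⟩))
            · rw [← hya]
              exact hadj.symm
            · rw [hya]
          · refine Or.inl (Finset.mem_filter.2 ⟨Finset.mem_product.2
              ⟨Finset.mem_erase.2 ⟨hxa, hx⟩, Finset.mem_erase.2 ⟨hya, hy⟩⟩, hadj⟩)
      have h1 := Finset.card_le_card hsub
      have h2 := Finset.card_union_le
        (((U.erase a) ×ˢ (U.erase a)).filter fun q : V × V => H.Adj q.1 q.2)
        (((U.filter fun b => H.Adj a b).image fun b => (a, b)) ∪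
              ((U.filter fun b => H.Adj a b).image fun b => (b, a)))
      have h3 := Finset.card_union_le ((U.filter fun b => H.Adj a b).image fun b => (a, b))
              ((U.filter fun b => H.Adj a b).image fun b => (b, a))
      have h4 : ((U.filter fun b => H.Adj a b).image fun b => (a, b)).card ≤
          (U.filter fun b => H.Adj a b).card := Finset.card_image_le
      have h5 : ((U.filter fun b => H.Adj a b).image fun b => (b, a)).card ≤
          (U.filter fun b => H.Adj a b).card := Finset.card_image_le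
      rw [hU] at h
      rw [hc]
      have h6 : 2 * d * (n + 1) = 2 * d * n + 2 * d := by ring
      omega

open Classical in
theorem sparse_loc {N p : ℕ} (A : Fin N → Fin N → Prop) (hA : ∀ a, ¬ A a a) (hM : ∃ f, MTC.IsPM A f) (r : Fin N → ZMod p) (W0 : Finset (Fin N)) (hr : ¬ BadW W0 r) :
    ((W0 ×ˢ W0).filter fun q : Fin N × Fin N => HG A (w2 r) q.1 q.2).card ≤ 2 * DD * W0.card := by
  by_contra hcon
  rw [not_le] at hcon
  have hne : ∀ a b, HG A (w2 r) a b → a ≠ b := by
    rintro a b ⟨f, hf, hab⟩ rfl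
    have h1 := hf.1.2 a
    rw [hab] at h1
    exact hA a h1
  have hsym : ∀ a b, HG A (w2 r) a b → HG A (w2 r) b a := by
    rintro a b ⟨f, hf, hab⟩
    exact ⟨f, hf, by rw [← hab]; exact hf.1.1 a⟩
  obtain ⟨H, hH⟩ : ∃ H : SimpleGraph (Fin N), ∀ a b, H.Adj a b ↔ HG A (w2 r) a b :=
    ⟨{ Adj := fun a b => HG A (w2 r) a b
       symm := ⟨fun a b h => hsym a b h⟩
       loopless := ⟨fun a h => hne a a h rfl⟩ }, fun a b => Iff.rfl⟩
  have hHG : ((W0 ×ˢ W0).filter fun q : Fin N × Fin N => H.Adj q.1 q.2) =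
      (W0 ×ˢ W0).filter fun q : Fin N × Fin N => HG A (w2 r) q.1 q.2 :=
    Finset.filter_congr fun q _ => hH q.1 q.2
  obtain ⟨W, hWW, hW, hdeg⟩ := V6_aux H DD W0.card W0 rfl (by rw [hHG]; exact hcon)
  have hwsym : ∀ a b, w2 r a b = w2 r b a := by
    intro a b
    unfold w2
    ring
  obtain ⟨L, hL, α, z, hpot⟩ := potentials A hA (w2 r) hwsym hM
  obtain ⟨γ, κ, hκ⟩ := tree L hL z W
  have hmem : ∀ x z : Fin N, z ∈ (W.filter fun b => H.Adj x b) → z ∈ W ∧ HG A (w2 r) x z ∧ x ≠ z := by
    intro x z h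
    have h1 := Finset.mem_filter.1 h
    have h2 := (hH x z).1 h1.2
    exact ⟨h1.1, h2, hne x z h2⟩
  obtain ⟨Z, J, hZ, hJ, hcard, hsel⟩ := selection W (fun x => W.filter fun b => H.Adj x b) κ
    (fun x hx => ⟨Finset.filter_subset _ _, (hdeg x hx).le⟩)
    (fun x hx z hz => (hκ x hx z (hmem x z hz).1 (hmem x z hz).2.2).1)
  have hsel2 : ∀ x : Fin N, ∃ u : Fin N × Fin N, x ∈ W → x ∉ Z → u.1 ∈ Z ∧ u.2 ∈ Z ∧ u.1 ≠ u.2 ∧
      u.1 ∈ (W.filter fun b => H.Adj x b) ∧ u.2 ∈ (W.filter fun b => H.Adj x b) ∧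
      (κ x u.1 = κ x u.2 ∨ (κ x u.1 ∈ J ∧ κ x u.2 ∈ J)) := by
    intro x
    by_cases hx : x ∈ W ∧ x ∉ Z
    · obtain ⟨a, ha, b, hb, hab, haR, hbR, h⟩ := hsel x hx.1 hx.2
      exact ⟨(a, b), fun _ _ => ⟨ha, hb, hab, haR, hbR, h⟩⟩
    · exact ⟨(x, x), fun h1 h2 => absurd ⟨h1, h2⟩ hx⟩
  choose u hu using hsel2
  have hw : ∀ x ∈ W, ∀ z ∈ (W.filter fun b => H.Adj x b), (w2 r x z : ℝ) = α x + α z - γ (κ x z) := by
    intro x hx z hz
    have h1 := hmem x z hz
    rw [hpot x z h1.2.1, (hκ x hx z h1.1 h1.2.2).2]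
  refine hr ⟨W, Z, J, fun x => (u x).1, fun x => (u x).2, fun x => κ x (u x).1, fun x => κ x (u x).2,
    hWW, ⟨hZ, hJ, hW, hcard, fun x hx hxZ => ?_⟩, α, γ, fun x hx hxZ => ?_⟩
  · have h1 := hu x hx hxZ
    exact ⟨h1.2.2.1, h1.1, h1.2.1, h1.2.2.2.2.2⟩
  · have h1 := hu x hx hxZ
    exact ⟨hw x hx _ h1.2.2.2.1, hw x hx _ h1.2.2.2.2.1⟩

end QLE
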