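import Pool.Agent.Lib.MP_0087d5_lcQE.V6
import Pool.Agent.Lib.MP_0087d5_lcQN.SG
import Pool.Agent.Lib.MP_0087d5_lcQN.K1

/-!
# Leaf V7 (medium-): few graphs `H` for the graphs which agree outside `W`

Proof. As `card_HG` and `card_small` (SG of MP_0087d5_lcQN) and `spOK_gen` (SP there): `H` is determined by its pairs inside `W` (`HG_eq`), `HG T w = HH T w` as relations if `T` has a perfect matching (`compress`, or `stp_ok`), `sparse_loc` (leaf V6) in place of `sparse_in`: at most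
`(W.card ^ 2 + 1) ^ (2 * DD * W.card) ≤ (N ^ 3) ^ (2 * DD * W.card)`.
-/

set_option autoImplicit false
set_option linter.all false

namespace QLE

open Finset Pool.Agent Pool.Agent.PMNC MTC LIN PRS QRB QSR QLN

theorem fam_count {N p d : ℕ} [NeZero p] (hN : 2 ≤ N) (ζ : Fin d → ZMod p) (W : Finset (Fin N)) (h : ¬ BadW W (rho ζ : Fin N → ZMod p)) (T0 : Fin N → Fin N → Prop) :
    Nat.card {H : Fin N → Fin N → Prop // ∃ T : Fin N → Fin N → Prop, (∀ x y, T x y → T y x) ∧ (∀ x, ¬ T x x) ∧ (∃ f, MTC.IsPM T f) ∧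
      (∀ x y, ¬ (x ∈ W ∧ y ∈ W) → (T x y ↔ T0 x y)) ∧ H = HH T (om ζ)} ≤ N ^ (6 * DD * W.card) := by
  classical
  have hw : ∀ a b : Fin N, om ζ a b = om ζ b a := fun a b => by
    unfold om w2
    ring
  obtain ⟨s, hs⟩ : ∃ s : Finset (Fin N → Fin N → Prop), ∀ T, T ∈ s ↔ (∀ x y, T x y → T y x) ∧ (∀ x, ¬ T x x) ∧
      (∃ f, MTC.IsPM T f) ∧ ∀ x y, ¬ (x ∈ W ∧ y ∈ W) → (T x y ↔ T0 x y) :=
    ⟨univ.filter fun T => (∀ x y, T x y → T y x) ∧ (∀ x, ¬ T x x) ∧ (∃ f, MTC.IsPM T f) ∧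
      ∀ x y, ¬ (x ∈ W ∧ y ∈ W) → (T x y ↔ T0 x y), fun T => by rw [mem_filter]; exact and_iff_right (mem_univ T)⟩
  have h1 : (s.image fun T => HG T (om ζ)).card ≤ N ^ (6 * DD * W.card) := by
    have hWN : W.card ≤ N := by
      have h2 := card_le_univ W
      rwa [Fintype.card_fin] at h2
    have h2 : (W ×ˢ W).card + 1 ≤ N ^ 3 := by
      rw [card_product]
      have h3 : W.card * W.card ≤ N * N := Nat.mul_le_mul hWN hWN
      have h4 : N ^ 3 = N * N * N := by ring
      have h5 : N * N * 2 ≤ N * N * N := Nat.mul_le_mul_left _ hN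
      have h6 : 1 ≤ N * N := Nat.mul_pos (by omega) (by omega)
      omega
    refine le_trans (?_ : (s.image fun T => HG T (om ζ)).card ≤ ((W ×ˢ W).powerset.filter fun T => T.card ≤ 2 * DD * W.card).card) ?_
    · refine card_le_card_of_injOn (fun R => (W ×ˢ W).filter fun p => R p.1 p.2) ?_ ?_
      · intro R hR
        rw [mem_coe, mem_image] at hR
        obtain ⟨T, hT, rfl⟩ := hR
        obtain ⟨a1, a2, a3, a4⟩ := (hs T).1 hT
        rw [mem_coe, mem_filter, mem_powerset]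
        refine ⟨filter_subset _ _, ?_⟩
        exact sparse_loc T a2 a3 (rho ζ) W h
      · intro R hR R' hR' h
        rw [mem_coe, mem_image] at hR hR'
        obtain ⟨T, hT, rfl⟩ := hR
        obtain ⟨T', hT', rfl⟩ := hR'
        obtain ⟨a1, a2, a3, a4⟩ := (hs T).1 hT
        obtain ⟨b1, b2, b3, b4⟩ := (hs T').1 hT'
        refine LIN.HG_eq T T' (om ζ) W (fun a b hab => (a4 a b hab).trans (b4 a b hab).symm) fun a ha b hb => ?_
        have h2 : ((a, b) ∈ (W ×ˢ W).filter fun p => HG T (om ζ) p.1 p.2) ↔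
            ((a, b) ∈ (W ×ˢ W).filter fun p => HG T' (om ζ) p.1 p.2) := by
          simp only at h
          rw [h]
        rw [mem_filter, mem_filter, mem_product] at h2
        constructor
        · intro h3
          exact (h2.1 ⟨⟨ha, hb⟩, h3⟩).2
        · intro h3
          exact (h2.2 ⟨⟨ha, hb⟩, h3⟩).2
    · refine (LIN.card_small (W ×ˢ W) _).trans ((Nat.pow_le_pow_left h2 _).trans (le_of_eq ?_))
      rw [← pow_mul]
      congr 1
      ring
  rw [Nat.subtype_card (s.image fun T => HG T (om ζ)) fun H => ?_]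
  · exact h1
  · rw [mem_image]
    constructor
    · rintro ⟨T, hT, rfl⟩
      obtain ⟨a1, a2, a3, a4⟩ := (hs T).1 hT
      refine ⟨T, a1, a2, a3, a4, ?_⟩
      funext x y
      exact (propext ((compress T a1 a2 (om ζ) hw a3).1 x y)).symm
    · rintro ⟨T, a1, a2, a3, a4, rfl⟩
      refine ⟨T, (hs T).2 ⟨a1, a2, a3, a4⟩, ?_⟩
      funext x y
      exact (propext ((compress T a1 a2 (om ζ) hw a3).1 x y)).symm

end QLE
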