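import Pool.Agent.Lib.MP_0087d5_lcQE.VDefs
import Pool.Agent.Lib.MP_0087d5_lcLI.CntA

/-!
# Leaf V8 (medium): few bad points

Proof. `BadW W r` implies `BadA r`, and it depends only on the numbers `r x`, `x ∈ W` (`Pot` uses `w2 r x (z1 x)` with `x, z1 x ∈ W` only). Let `B` be the set of the `s : W → ZMod p` such that (some, so every) extension of `s` is bad. The map `r ↦ (r x)_(x ∈ W)` from `Fin N → ZMod p` has fibres with `p ^ (N - W.card)` elements, so `B.card * p ^ (N - W.card) ≤
card {r | BadA r} ≤ N ^ 3 * p ^ (N - 1)` (`card_badA`, LI/CntA). The map `ζ ↦ (rho ζ x)_(x ∈ W)` from `Fin d → ZMod p` is linear and onto (`W.card ≤ d`, the numbers `x : ZMod p`, `x ∈ W`, are distinct as `N ≤ p`: interpolation, `Lagrange.interpolate` or the Vandermonde determinant `Matrix.det_vandermonde_ne_zero_iff`), so its fibres have `p ^ (d - W.card)`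
elements. So the number of the bad `ζ`, times `p`, is at most `N ^ 3 * p ^ d`, and `N ^ 17 ≤ p`. (A direct way for the fibres: for a linear map onto `F_p ^ k` the preimage of a set `B` has `card B * card (ker)` elements; for both maps compare with the product. If `B` is empty, nothing is to be proved.)
-/

set_option autoImplicit false
set_option linter.all false

namespace QLE

open Finset Pool.Agent Pool.Agent.PMNC MTC LIN PRS QRB QSR QLN

private theorem V8_nc {V : Type} [Fintype V] (P : V → Prop) [DecidablePred P] : Nat.card {v // P v} = (univ.filter P).card := by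
  rw [Nat.card_eq_fintype_card, Fintype.card_subtype]

open Classical in
private theorem V8_fib {V U : Type} [AddCommGroup V] [AddCommGroup U] [Fintype V] [Fintype U] (f : V →+ U) (hf : Function.Surjective f) (B : Finset U) :
    Nat.card {v // f v ∈ B} * Fintype.card U = B.card * Fintype.card V := by
  rw [V8_nc]
  have h0 : ∀ b : U, (univ.filter fun v => f v = b).card = (univ.filter fun v => f v = 0).card := by
    intro b
    obtain ⟨v0, hv0⟩ := hf b
    refine (Finset.card_bij (fun v _ => v + v0) ?_ ?_ ?_).symm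
    · intro v hv
      rw [mem_filter] at hv ⊢
      exact ⟨mem_univ _, by rw [map_add, hv.2, hv0, zero_add]⟩
    · intro a _ b _ h
      exact add_right_cancel h
    · intro c hc
      rw [mem_filter] at hc
      refine ⟨c - v0, ?_, sub_add_cancel _ _⟩
      rw [mem_filter]
      exact ⟨mem_univ _, by rw [map_sub, hc.2, hv0, sub_self]⟩
  have h1 : (univ.filter fun v => f v ∈ B).card = B.card * (univ.filter fun v => f v = 0).card := by
    have h2 : (univ.filter fun v => f v ∈ B).card = ∑ b ∈ B, ((univ.filter fun v => f v ∈ B).filter fun v => f v = b).card :=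
      Finset.card_eq_sum_card_fiberwise (fun v hv => (mem_filter.1 hv).2)
    rw [h2]
    have h3 : ∀ b ∈ B, ((univ.filter fun v => f v ∈ B).filter fun v => f v = b).card = (univ.filter fun v => f v = 0).card := by
      intro b hb
      rw [← h0 b, filter_filter]
      congr 1
      ext v
      simp only [mem_filter, mem_univ, true_and]
      constructor
      · exact fun h => h.2
      · intro h
        exact ⟨by rw [h]; exact hb, h⟩
    rw [Finset.sum_congr rfl h3, sum_const, smul_eq_mul]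
  have h4 : Fintype.card V = Fintype.card U * (univ.filter fun v => f v = 0).card := by
    have h2 : (univ : Finset V).card = ∑ b ∈ (univ : Finset U), ((univ : Finset V).filter fun v => f v = b).card :=
      Finset.card_eq_sum_card_fiberwise (fun v _ => mem_univ _)
    rw [card_univ] at h2
    rw [h2, Finset.sum_congr rfl fun b _ => h0 b, sum_const, smul_eq_mul, card_univ]
  rw [h1, h4]
  ring

private theorem V8_loc {N p : ℕ} (W : Finset (Fin N)) (r r' : Fin N → ZMod p) (h : ∀ x ∈ W, r x = r' x) (hb : BadW W r) : BadW W r' := by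
  obtain ⟨W1, Z, J, z1, z2, i1, i2, hW1, hg, α, γ, hp⟩ := hb
  refine ⟨W1, Z, J, z1, z2, i1, i2, hW1, hg, α, γ, ?_⟩
  intro x hx hxZ
  obtain ⟨hZ, -, -, -, hx'⟩ := hg
  obtain ⟨-, h1, h2, -⟩ := hx' x hx hxZ
  have h3 := hp x hx hxZ
  have e0 := h x (hW1 hx)
  have e1 := h (z1 x) (hW1 (hZ h1))
  have e2 := h (z2 x) (hW1 (hZ h2))
  unfold w2 at h3 ⊢
  rw [e0, e1, e2] at h3
  exact h3

private theorem V8_badA {N p : ℕ} (W : Finset (Fin N)) (r : Fin N → ZMod p) (hb : BadW W r) : BadA r := by
  obtain ⟨W1, Z, J, z1, z2, i1, i2, -, hg, hp⟩ := hb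
  exact ⟨W1, Z, J, z1, z2, i1, i2, hg, hp⟩

private theorem V8_sur {N p d : ℕ} [Fact p.Prime] (hNp : N ≤ p) (W : Finset (Fin N)) (hd : W.card ≤ d) (s : W → ZMod p) :
    ∃ ζ : Fin d → ZMod p, ∀ x : W, (rho ζ : Fin N → ZMod p) x.1 = s x := by
  classical
  have hinj : Set.InjOn (fun x : Fin N => ((x : ℕ) : ZMod p)) (W : Set (Fin N)) := by
    intro a _ b _ hab
    have h1 : ((a : ℕ) : ZMod p) = ((b : ℕ) : ZMod p) := hab
    rw [ZMod.natCast_eq_natCast_iff'] at h1
    rw [Nat.mod_eq_of_lt (lt_of_lt_of_le a.2 hNp), Nat.mod_eq_of_lt (lt_of_lt_of_le b.2 hNp)] at h1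
    exact Fin.ext h1
  set P := Lagrange.interpolate W (fun x : Fin N => ((x : ℕ) : ZMod p)) (fun x => if h : x ∈ W then s ⟨x, h⟩ else 0) with hP
  have hdeg : P.degree < (W.card : WithBot ℕ) := Lagrange.degree_interpolate_lt _ hinj
  refine ⟨fun u => P.coeff u, ?_⟩
  intro x
  have hev : P.eval ((x.1 : ℕ) : ZMod p) = s x := by
    have h1 := Lagrange.eval_interpolate_at_node (r := fun x => if h : x ∈ W then s ⟨x, h⟩ else 0) hinj x.2
    rw [← hP] at h1
    rw [h1, dif_pos x.2]
  have hd1 : 1 ≤ d := le_trans (Finset.card_pos.2 ⟨x.1, x.2⟩) hd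
  have hnd : P.natDegree < d := by
    rcases eq_or_ne P 0 with h0 | h0
    · rw [h0, Polynomial.natDegree_zero]
      exact hd1
    · rw [Polynomial.natDegree_lt_iff_degree_lt h0]
      exact lt_of_lt_of_le hdeg (by exact_mod_cast hd)
  rw [← hev, Polynomial.eval_eq_sum_range' hnd, ← Fin.sum_univ_eq_sum_range (fun i => P.coeff i * ((x.1 : ℕ) : ZMod p) ^ i) d]
  rfl

open Classical in
theorem badw_count {N p d : ℕ} [Fact p.Prime] (hN : 2 ≤ N) (hp : (4 * N ^ 5) ^ 4 ≤ p) (W : Finset (Fin N)) (hd : W.card ≤ d) :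
    (univ.filter fun ζ : Fin d → ZMod p => BadW W (rho ζ : Fin N → ZMod p)).card * N ^ 14 ≤ p ^ d := by
  have hp0 : 0 < p := (Fact.out : p.Prime).pos
  have hN0 : 0 < N := by omega
  have h17 : N ^ 17 ≤ p := by
    refine le_trans ?_ hp
    rw [mul_pow, ← pow_mul]
    calc N ^ 17 ≤ N ^ (5 * 4) := Nat.pow_le_pow_right hN0 (by norm_num)
      _ ≤ 4 ^ 4 * N ^ (5 * 4) := Nat.le_mul_of_pos_left _ (by norm_num)
  have hNp : N ≤ p := le_trans (by calc N = N ^ 1 := (pow_one N).symm
    _ ≤ N ^ 17 := Nat.pow_le_pow_right hN0 (by norm_num)) h17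
  set B : Finset (W → ZMod p) := univ.filter fun s => ∃ r : Fin N → ZMod p, (∀ x : W, r x.1 = s x) ∧ BadW W r with hB
  let f1 : (Fin N → ZMod p) →+ (W → ZMod p) :=
    { toFun := fun r x => r x.1, map_zero' := rfl, map_add' := fun _ _ => rfl }
  let f2 : (Fin d → ZMod p) →+ (W → ZMod p) :=
    { toFun := fun ζ x => rho ζ x.1
      map_zero' := by
        funext x
        show rho (0 : Fin d → ZMod p) x.1 = 0
        unfold rho
        exact Finset.sum_eq_zero fun u _ => by rw [Pi.zero_apply, zero_mul]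
      map_add' := fun a b => by
        funext x
        show rho (a + b) x.1 = rho a x.1 + rho b x.1
        unfold rho
        rw [← Finset.sum_add_distrib]
        exact Finset.sum_congr rfl fun u _ => by rw [Pi.add_apply, add_mul] }
  have hf1 : Function.Surjective f1 := by
    intro s
    refine ⟨fun x => if h : x ∈ W then s ⟨x, h⟩ else 0, ?_⟩
    funext x
    exact dif_pos x.2
  have hf2 : Function.Surjective f2 := by
    intro s
    obtain ⟨ζ, hζ⟩ := V8_sur hNp W hd s
    exact ⟨ζ, funext hζ⟩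
  have e1 := V8_fib f1 hf1 B
  have e2 := V8_fib f2 hf2 B
  have h1 : (univ.filter fun r : Fin N → ZMod p => f1 r ∈ B) ⊆ univ.filter fun r : Fin N → ZMod p => BadA r := by
    intro r hr
    rw [mem_filter] at hr ⊢
    refine ⟨mem_univ _, ?_⟩
    obtain ⟨r', h2, h3⟩ := (mem_filter.1 hr.2).2
    exact V8_badA W r (V8_loc W r' r (fun x hx => h2 ⟨x, hx⟩) h3)
  have h2 : (univ.filter fun ζ : Fin d → ZMod p => BadW W (rho ζ : Fin N → ZMod p)) ⊆ univ.filter fun ζ : Fin d → ZMod p => f2 ζ ∈ B := by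
    intro ζ hζ
    rw [mem_filter] at hζ ⊢
    exact ⟨mem_univ _, mem_filter.2 ⟨mem_univ _, rho ζ, fun _ => rfl, hζ.2⟩⟩
  have c1 := (card_le_card h1).trans (card_badA (n := N) (q := p) hN hp)
  have c2 := card_le_card h2
  rw [V8_nc, Fintype.card_fun, Fintype.card_fun, ZMod.card, Fintype.card_coe, Fintype.card_fin] at e1 e2
  set a := (univ.filter fun ζ : Fin d → ZMod p => BadW W (rho ζ : Fin N → ZMod p)).card
  set a1 := (univ.filter fun r : Fin N → ZMod p => f1 r ∈ B).card
  set a2 := (univ.filter fun ζ : Fin d → ZMod p => f2 ζ ∈ B).card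
  have hpN : p ^ N = p ^ (N - 1) * p := by
    rw [← pow_succ, Nat.sub_add_cancel hN0]
  have h3 : B.card * p ≤ N ^ 3 * p ^ W.card := by
    have h4 : B.card * p * p ^ (N - 1) ≤ N ^ 3 * p ^ W.card * p ^ (N - 1) := by
      calc B.card * p * p ^ (N - 1) = B.card * p ^ N := by rw [hpN]; ring
        _ = a1 * p ^ W.card := e1.symm
        _ ≤ (N ^ 3 * p ^ (N - 1)) * p ^ W.card := Nat.mul_le_mul_right _ c1
        _ = N ^ 3 * p ^ W.card * p ^ (N - 1) := by ring
    exact Nat.le_of_mul_le_mul_right h4 (pow_pos hp0 _)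
  have h5 : a2 * p ≤ N ^ 3 * p ^ d := by
    have h6 : a2 * p * p ^ W.card ≤ N ^ 3 * p ^ d * p ^ W.card := by
      calc a2 * p * p ^ W.card = (a2 * p ^ W.card) * p := by ring
        _ = B.card * p * p ^ d := by rw [e2]; ring
        _ ≤ N ^ 3 * p ^ W.card * p ^ d := Nat.mul_le_mul_right _ h3
        _ = N ^ 3 * p ^ d * p ^ W.card := by ring
    exact Nat.le_of_mul_le_mul_right h6 (pow_pos hp0 _)
  have h7 : a * N ^ 14 * N ^ 3 ≤ p ^ d * N ^ 3 := by
    calc a * N ^ 14 * N ^ 3 = a * N ^ 17 := by ring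
      _ ≤ a2 * p := Nat.mul_le_mul c2 h17
      _ ≤ N ^ 3 * p ^ d := h5
      _ = p ^ d * N ^ 3 := by ring
  exact Nat.le_of_mul_le_mul_right h7 (pow_pos hN0 _)

end QLE
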