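import Pool.Agent.Lib.MP_0087d5_lcQE.V4
import Pool.Agent.Lib.MP_0087d5_lcQE.V7
import Pool.Agent.Lib.MP_0087d5_lcQE.V8
import Pool.Agent.Lib.MP_0087d5_lcQN.F2
import Pool.Agent.Lib.MP_0087d5_lcQN.K1

/-!
# Leaf V9 (medium+): the union bound

Proof. `c1, n1, D1` from `src_count1 hW` (leaf V4), `c2, n2, D2` from `QLN.src_count hW 0` (leaf F2 of MP_0087d5_lcQN, with `k = 0`), `n0 = max n1 n2`, `D = max D1 D2 + 26` (or larger). Let `N = n + n`, `p` from `par1 N` (leaf V5), `d = W.card + 1` (`1 ≤ d ≤ N`), `g` a generator: `orderOf g = p - 1`, `W' = W.map (Fin.castAddEmb n)` (`W'.card = W.card`),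
`B ζ = BadW W' (rho ζ)` on `Fin d → ZMod p`.
(0) The graphs `A` such that `B (pt d X g y t)` for all `y` and `t ≤ 2 * d`, `X = SP N (pair G A)`: less than `p ^ (5 * d)` (`card_excD` (C3 of MP_0087d5_lcQN) with `badw_count` (leaf V8); `sp_inj`).
(1) For each `ζ` which is not bad (at most `p ^ d`), each `j` (at most `N + N * N`) and each `H` in the family of `fam_count` (leaf V7) for `T0 = (TK n j G).Adj`, `W'` (at most `N ^ (6 * DD * W.card)`): the set of `src_count1` for `ω = om ζ` (`om_le`, leaf V0) and `H`, and the set of `QLN.src_count` for `m`, `r0 = 0` (`0 < m`) and `H' = HH H (ω0 m 0)`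
(symmetric, irreflexive, with a perfect matching: `stp_ok`, as `H` is).
If `A` is in none of these sets, `G'` agrees with `G` outside `W`, `T = TK n j G'` has a perfect matching, `X = SP N (pair G' A) = SP N (pair G A)` (`SP_congr`): there are `y, t ≤ 2 * d` with `ζ = pt d X g y t` not bad. `π = (p, g.val, y.val, t, d)` in `S N` (`nv_surj`): `Om X π = om ζ` (`om_eq`, leaf V0). `H = HH T.Adj (om ζ)` is in the family (`tk_off`).
So there is `κ` with `(H1 X T κ π).Adj x y ↔ H x y`; `H1 X T κ π` has a perfect matching and `HH (H1 …).Adj (ω0 m 0) = H'`, so there is `κ'` with `PMr (QLN.OutR X (H1 X T κ π) κ')`, which is `PMr (OutE X T ((κ, π), κ'))`.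
Numbers: `p ≤ N ^ 25`, `N ≤ n ^ 2`, `2 ^ (c * Nat.log 2 n ^ 2) ≤ n ^ (c * Nat.log 2 n)` (`2 ^ Nat.log 2 n ≤ n`), `1 ≤ Nat.log 2 n`; the sum is at most `n ^ (c * (W.card + Nat.log 2 n))` for a suitable `c` (not optimized). `F3_card` (private, leaf F3 of MP_0087d5_lcQN) is a convenient form of the union bound.
-/

set_option autoImplicit false
set_option linter.all false

namespace QLE

open Finset Pool.Agent Pool.Agent.PMNC MTC LIN PRS QRB QSR QLN

private theorem V9_gen (q : ℕ) [Fact q.Prime] : ∃ g : ZMod q, orderOf g = q - 1 := by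
  obtain ⟨u, hu⟩ := IsCyclic.exists_generator (α := (ZMod q)ˣ)
  refine ⟨(u : ZMod q), ?_⟩
  rw [orderOf_units, orderOf_eq_card_of_forall_mem_zpowers hu, Nat.card_eq_fintype_card, ZMod.card_units]

private theorem V9_or {α : Type} [Finite α] (P Q : α → Prop) :
    Nat.card {A // P A ∨ Q A} ≤ Nat.card {A // P A} + Nat.card {A // Q A} := by
  classical
  rw [← Nat.card_sum]
  refine Nat.card_le_card_of_injective
    (fun A : {A // P A ∨ Q A} => if h : P A.1 then Sum.inl ⟨A.1, h⟩ else Sum.inr ⟨A.1, A.2.resolve_left h⟩) ?_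
  intro A A' e
  by_cases h : P A.1 <;> by_cases h' : P A'.1 <;> simp only [h, h', dif_pos, dif_neg, not_false_iff, Sum.inl.injEq, Sum.inr.injEq,
    Subtype.mk.injEq, reduceCtorEq] at e
  · exact Subtype.ext e
  · exact Subtype.ext e

private theorem V9_mono {α : Type} [Finite α] (P Q : α → Prop) (h : ∀ A, P A → Q A) :
    Nat.card {A // P A} ≤ Nat.card {A // Q A} := by
  refine Nat.card_le_card_of_injective (fun A : {A // P A} => (⟨A.1, h A.1 A.2⟩ : {A // Q A})) ?_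
  intro A A' e
  exact Subtype.ext (congrArg (fun s : {A // Q A} => s.1) e)

private theorem V9_key {α β : Type} (P : α → Prop) (F : Finset β) (f : α → β) (hf : Function.Injective f)
    (h : ∀ A, P A → f A ∈ F) : Nat.card {A // P A} ≤ F.card := by
  rw [← Nat.card_eq_finsetCard]
  refine Nat.card_le_card_of_injective (fun A : {A // P A} => (⟨f A.1, h A.1 A.2⟩ : {X // X ∈ F})) ?_
  intro A A' e
  exact Subtype.ext (hf (congrArg (fun s : {X // X ∈ F} => s.1) e))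

private theorem V9_card {α J Hh : Type} [Finite α] [Fintype J] [Finite Hh] {E : α → Prop} (P : J → Hh → Prop)
    (B : J → Hh → α → Prop) (a b c : ℕ) (hJ : Fintype.card J ≤ a) (hP : ∀ j, Nat.card {H // P j H} ≤ b)
    (hB : ∀ j H, P j H → Nat.card {A // B j H A} ≤ c) (h : ∀ A, E A → ∃ j H, P j H ∧ B j H A) :
    Nat.card {A // E A} ≤ a * (b * c) := by
  classical
  have h0 : ∀ A : {A // E A}, ∃ j H, P j H ∧ B j H A.1 := fun A => h A.1 A.2
  choose j H h1 h2 using h0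
  let f : {A // E A} → Σ j : J, Σ H : {H // P j H}, {A // B j H.1 A} := fun A => ⟨j A, ⟨H A, h1 A⟩, A.1, h2 A⟩
  have hf : Function.Injective f := fun A A' e =>
    Subtype.ext (congrArg (fun s : (Σ j : J, Σ H : {H // P j H}, {A // B j H.1 A}) => s.2.2.1) e)
  refine (Nat.card_le_card_of_injective f hf).trans ?_
  rw [Nat.card_sigma]
  have h3 : ∀ j : J, Nat.card (Σ H : {H // P j H}, {A // B j H.1 A}) ≤ b * c := by
    intro j
    have : Fintype {H // P j H} := Fintype.ofFinite _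
    rw [Nat.card_sigma]
    refine (Finset.sum_le_card_nsmul _ _ c fun H _ => hB j H.1 H.2).trans ?_
    rw [smul_eq_mul, Finset.card_univ, ← Nat.card_eq_fintype_card]
    exact Nat.mul_le_mul_right c (hP j)
  refine (Finset.sum_le_card_nsmul _ _ (b * c) fun j _ => h3 j).trans ?_
  rw [smul_eq_mul, Finset.card_univ]
  exact Nat.mul_le_mul_right _ hJ

private theorem V9_pi {S : ℕ → Type} [Env S] [∀ n, Fintype (S n)] {N p d : ℕ} [hp : Fact p.Prime] (hS : 26 ≤ dim S) (hN : 4 ≤ N)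
    (hpN : p ≤ N ^ 25) (hd : d ≤ N) (X : SimpleGraph (Fin N)) (g y : ZMod p) {t : ℕ} (ht : t ≤ 2 * d) :
    ∃ π : Pw S N, (¬ nv π.1 = 0) ∧ ∀ x y' : Fin N, Om X π x y' = om (pt d X g y t) x y' := by
  have h1 : N ^ 25 < N ^ 26 := Nat.pow_lt_pow_right (by omega) (by norm_num)
  have h2 : N ^ 26 ≤ N ^ dim S := Nat.pow_le_pow_right (by omega) hS
  have h3 : 2 * N ≤ N ^ 25 := by
    have h4 : N ^ 2 ≤ N ^ 25 := Nat.pow_le_pow_right (by omega) (by norm_num)
    nlinarith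
  obtain ⟨p', hp'⟩ := nv_surj (S := S) (n := N) (m := p) (by omega)
  obtain ⟨g', hg'⟩ := nv_surj (S := S) (n := N) (m := g.val) (by
    have := ZMod.val_lt g
    omega)
  obtain ⟨y₁, hy₁⟩ := nv_surj (S := S) (n := N) (m := y.val) (by
    have := ZMod.val_lt y
    omega)
  obtain ⟨t', ht'⟩ := nv_surj (S := S) (n := N) (m := t) (by omega)
  obtain ⟨d', hd'⟩ := nv_surj (S := S) (n := N) (m := d) (by omega)
  subst hp' ht' hd'
  refine ⟨(p', (g', (y₁, (t', d')))), hp.out.ne_zero, fun x y' => ?_⟩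
  have h5 := om_eq (S := S) X (p', (g', (y₁, (t', d')))) hd x y'
  rw [h5]
  show om (pt (nv d') X ((nv g' : ℕ) : ZMod (nv p')) ((nv y₁ : ℕ) : ZMod (nv p')) (nv t')) x y' = _
  rw [hg', hy₁, ZMod.natCast_zmod_val, ZMod.natCast_zmod_val]

private theorem V9_two (n c : ℕ) (hn : 2 ≤ n) : 2 ^ (c * Nat.log 2 n ^ 2) ≤ n ^ (c * Nat.log 2 n) := by
  have h1 : 2 ^ Nat.log 2 n ≤ n := Nat.pow_log_le_self 2 (by omega)
  calc 2 ^ (c * Nat.log 2 n ^ 2) = (2 ^ Nat.log 2 n) ^ (c * Nat.log 2 n) := by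
        rw [← pow_mul]
        congr 1
        ring
    _ ≤ n ^ (c * Nat.log 2 n) := Nat.pow_le_pow_left h1 _

private theorem V9_num (n w c1 c2 p E : ℕ) (hn : 64 ≤ n) (hp : p ≤ (n + n) ^ 25) :
    p ^ (5 * (w + 1)) + p ^ (w + 1) * ((n + n) + (n + n) * (n + n)) *
      ((n + n) ^ (6 * E * w) * (2 ^ (c1 * Nat.log 2 n ^ 2) + 2 ^ (c2 * Nat.log 2 n ^ 2))) ≤
      n ^ ((307 + 12 * E + c1 + c2) * (w + Nat.log 2 n)) := by
  have hL : 1 ≤ Nat.log 2 n := Nat.log_pos (by norm_num) (by omega)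
  have e1 := V9_two n c1 (by omega)
  have e2 := V9_two n c2 (by omega)
  generalize Nat.log 2 n = L at *
  have hN : n + n ≤ n ^ 2 := by nlinarith
  have hn1 : 1 ≤ n := by omega
  have hp2 : p ≤ n ^ 50 := hp.trans ((Nat.pow_le_pow_left hN 25).trans (le_of_eq (by rw [← pow_mul])))
  have a1 : p ^ (5 * (w + 1)) ≤ n ^ (250 * (w + 1)) :=
    (Nat.pow_le_pow_left hp2 _).trans (le_of_eq (by rw [← pow_mul]; congr 1; ring))
  have a2 : p ^ (w + 1) ≤ n ^ (50 * (w + 1)) :=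
    (Nat.pow_le_pow_left hp2 _).trans (le_of_eq (by rw [← pow_mul]))
  have a3 : (n + n) + (n + n) * (n + n) ≤ n ^ 5 := by
    have h1 : (n + n) + (n + n) * (n + n) ≤ n ^ 2 + n ^ 2 * n ^ 2 := Nat.add_le_add hN (Nat.mul_le_mul hN hN)
    have h2 : n ^ 2 ≤ n ^ 4 := Nat.pow_le_pow_right hn1 (by norm_num)
    have h3 : n ^ 2 * n ^ 2 = n ^ 4 := by ring
    have h4 : n ^ 5 = n ^ 4 * n := by ring
    have h5 : n ^ 4 * 2 ≤ n ^ 4 * n := Nat.mul_le_mul_left _ (by omega)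
    omega
  have a4 : (n + n) ^ (6 * E * w) ≤ n ^ (12 * E * w) :=
    (Nat.pow_le_pow_left hN _).trans (le_of_eq (by rw [← pow_mul]; congr 1; ring))
  have a5 : 2 ^ (c1 * L ^ 2) + 2 ^ (c2 * L ^ 2) ≤ n ^ (1 + (c1 + c2) * L) := by
    have h1 : n ^ (c1 * L) ≤ n ^ ((c1 + c2) * L) := Nat.pow_le_pow_right hn1 (Nat.mul_le_mul_right _ (by omega))
    have h2 : n ^ (c2 * L) ≤ n ^ ((c1 + c2) * L) := Nat.pow_le_pow_right hn1 (Nat.mul_le_mul_right _ (by omega))
    have h3 : n ^ (1 + (c1 + c2) * L) = n * n ^ ((c1 + c2) * L) := by rw [pow_add, pow_one]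
    have h4 : 2 * n ^ ((c1 + c2) * L) ≤ n * n ^ ((c1 + c2) * L) := Nat.mul_le_mul_right _ (by omega)
    omega
  have a6 : p ^ (w + 1) * ((n + n) + (n + n) * (n + n)) *
      ((n + n) ^ (6 * E * w) * (2 ^ (c1 * L ^ 2) + 2 ^ (c2 * L ^ 2))) ≤
      n ^ (50 * (w + 1) + 5 + (12 * E * w + (1 + (c1 + c2) * L))) := by
    have h1 : n ^ (50 * (w + 1) + 5 + (12 * E * w + (1 + (c1 + c2) * L))) =
        n ^ (50 * (w + 1)) * n ^ 5 * (n ^ (12 * E * w) * n ^ (1 + (c1 + c2) * L)) := by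
      rw [pow_add n (50 * (w + 1) + 5), pow_add n (50 * (w + 1)) 5, pow_add n (12 * E * w)]
    rw [h1]
    exact Nat.mul_le_mul (Nat.mul_le_mul a2 a3) (Nat.mul_le_mul a4 a5)
  obtain ⟨M, hM⟩ : ∃ M, M = 250 * (w + 1) + (50 * (w + 1) + 5 + (12 * E * w + (1 + (c1 + c2) * L))) := ⟨_, rfl⟩
  have a7 : p ^ (5 * (w + 1)) ≤ n ^ M := a1.trans (Nat.pow_le_pow_right hn1 (by omega))
  have a8 := a6.trans (show n ^ (50 * (w + 1) + 5 + (12 * E * w + (1 + (c1 + c2) * L))) ≤ n ^ M from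
    Nat.pow_le_pow_right hn1 (by omega))
  have a9 : n ^ M + n ^ M ≤ n ^ (1 + M) := by
    rw [pow_add, pow_one]
    have : 2 * n ^ M ≤ n * n ^ M := Nat.mul_le_mul_right _ (by omega)
    omega
  refine (Nat.add_le_add a7 a8).trans (a9.trans (Nat.pow_le_pow_right hn1 ?_))
  rw [hM]
  nlinarith [Nat.zero_le (12 * E * L), Nat.zero_le ((c1 + c2) * w)]

theorem exc_count {C : ℕ} (hW : IsoMostW C) : ∃ c n0 D : ℕ, 2 ≤ n0 ∧ ∀ (S : ℕ → Type) [Env S] [∀ n, Fintype (S n)], D ≤ dim S →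
    ∀ n : ℕ, n0 ≤ n → ∀ (G : SimpleGraph (Fin n)) (W : Finset (Fin n)),
      Nat.card {A : SimpleGraph (Fin n) // ∃ G' : SimpleGraph (Fin n), Off W G G' ∧ ∃ j, HasPM (TK n j G') ∧
        ¬ ∃ ε : Pe S (n + n), PMr (OutE (SP (n + n) (pair G' A)) (TK n j G') ε)} ≤ n ^ (c * (W.card + Nat.log 2 n)) := by
  classical
  obtain ⟨c1, n1, D1, hn1, hs1⟩ := src_count1 hW
  obtain ⟨c2, n2, D2, hn2, hs2⟩ := QLN.src_count hW 0
  refine ⟨307 + 12 * DD + c1 + c2, max n1 n2, max D1 D2 + 26, ?_, fun S _ _ hD n hn G W => ?_⟩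
  · have := le_max_left n1 n2
    omega
  have hn1' : n1 ≤ n := (le_max_left n1 n2).trans hn
  have hn2' : n2 ≤ n := (le_max_right n1 n2).trans hn
  have hD1 : D1 ≤ dim S := by
    have := le_max_left D1 D2
    omega
  have hD2 : D2 ≤ dim S := by
    have := le_max_right D1 D2
    omega
  have hn64 : 64 ≤ n := hn1.trans hn1'
  obtain ⟨p, hp, hp4, hp20, hp25⟩ := par1 (n + n) (by omega)
  haveI : Fact p.Prime := ⟨hp⟩
  obtain ⟨g, hg⟩ := V9_gen p
  obtain ⟨m, hm, -, hs2'⟩ := hs2 S hD2 n hn2'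
  have hWn : W.card ≤ n := by
    have h := Finset.card_le_univ W
    rwa [Fintype.card_fin] at h
  obtain ⟨W', hW'd⟩ : ∃ W' : Finset (Fin (n + n)), W' = W.map (Fin.castAddEmb n) := ⟨_, rfl⟩
  have hW'c : W'.card = W.card := by rw [hW'd, Finset.card_map]
  have hω0 : ∀ x y : Fin (n + n), ω0 m 0 x y = ω0 m 0 y x := by
    intro x y
    unfold ω0
    rw [PMNC.eid_comm]
  have hbc := badw_count (N := n + n) (p := p) (d := W.card + 1) (by omega) hp4 W' (by omega)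
  have hcx := card_excD (N := n + n) (q := p) (D := W.card + 1) (by omega) (by omega) (by omega) hp20 g hg
    (fun ζ => BadW W' (rho ζ : Fin (n + n) → ZMod p)) hbc
  -- the sources with only bad points
  have h0 : Nat.card {A : SimpleGraph (Fin n) // ∀ y : ZMod p, ∀ t ≤ 2 * (W.card + 1),
      BadW W' (rho (pt (W.card + 1) (SP (n + n) (pair G A)) g y t) : Fin (n + n) → ZMod p)} ≤ p ^ (5 * (W.card + 1)) := by
    refine le_trans ?_ hcx.le
    refine V9_key _ _ (fun A => SP (n + n) (pair G A)) (fun A A' h => sp_inj G G A A' h) fun A hA => ?_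
    rw [Finset.mem_filter]
    exact ⟨Finset.mem_univ _, hA⟩
  -- the others
  have h1 : Nat.card {A : SimpleGraph (Fin n) // (∃ G' : SimpleGraph (Fin n), Off W G G' ∧ ∃ j, HasPM (TK n j G') ∧
        ¬ ∃ ε : Pe S (n + n), PMr (OutE (SP (n + n) (pair G' A)) (TK n j G') ε)) ∧
        ¬ ∀ y : ZMod p, ∀ t ≤ 2 * (W.card + 1),
      BadW W' (rho (pt (W.card + 1) (SP (n + n) (pair G A)) g y t) : Fin (n + n) → ZMod p)} ≤
      p ^ (W.card + 1) * ((n + n) + (n + n) * (n + n)) *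
      ((n + n) ^ (6 * DD * W.card) * (2 ^ (c1 * Nat.log 2 n ^ 2) + 2 ^ (c2 * Nat.log 2 n ^ 2))) := by
    refine V9_card (J := (Fin (W.card + 1) → ZMod p) × (Fin (n + n) ⊕ (Fin (n + n) × Fin (n + n))))
      (fun ζj (H : Fin (n + n) → Fin (n + n) → Prop) => (¬ BadW W' (rho ζj.1 : Fin (n + n) → ZMod p)) ∧
        ∃ T : Fin (n + n) → Fin (n + n) → Prop, (∀ x y, T x y → T y x) ∧
        (∀ x, ¬ T x x) ∧ (∃ f, MTC.IsPM T f) ∧ (∀ x y, ¬ (x ∈ W' ∧ y ∈ W') → (T x y ↔ (TK n ζj.2 G).Adj x y)) ∧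
        H = HH T (om ζj.1))
      (fun ζj H A => (∃ (T : SimpleGraph (Fin (n + n))) (π : Pw S (n + n)), (∃ f, MTC.IsPM T.Adj f) ∧
          HH T.Adj (om ζj.1) = H ∧ (¬ nv π.1 = 0) ∧
          (∀ x y, Om (SP (n + n) (pair G A)) π x y = om ζj.1 x y) ∧
          ¬ ∃ κ : Pq S (n + n), ∀ x y, (H1 (SP (n + n) (pair G A)) T κ π).Adj x y ↔ H x y) ∨
        ∃ T : SimpleGraph (Fin (n + n)), (∃ f, MTC.IsPM T.Adj f) ∧ HH T.Adj (ω0 m 0) = HH H (ω0 m 0) ∧
          ¬ ∃ κ : Pq S (n + n), PMr (QLN.OutR (SP (n + n) (pair G A)) T κ))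
      _ _ _ ?_ ?_ ?_ ?_
    · rw [Fintype.card_prod, Fintype.card_fun, ZMod.card, Fintype.card_sum, Fintype.card_prod, Fintype.card_fin,
        Fintype.card_fin]
    · rintro ⟨ζ, j⟩
      by_cases hb : BadW W' (rho ζ : Fin (n + n) → ZMod p)
      · have he : IsEmpty {H : Fin (n + n) → Fin (n + n) → Prop // (¬ BadW W' (rho ζ : Fin (n + n) → ZMod p)) ∧
            ∃ T : Fin (n + n) → Fin (n + n) → Prop, (∀ x y, T x y → T y x) ∧
            (∀ x, ¬ T x x) ∧ (∃ f, MTC.IsPM T f) ∧ (∀ x y, ¬ (x ∈ W' ∧ y ∈ W') → (T x y ↔ (TK n j G).Adj x y)) ∧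
            H = HH T (om ζ)} := ⟨fun H => H.2.1 hb⟩
        refine le_trans (le_of_eq ?_) (Nat.zero_le _)
        exact @Nat.card_of_isEmpty _ he
      · have h2 := fam_count (N := n + n) (by omega) ζ W' hb (TK n j G).Adj
        rw [hW'c] at h2
        exact (V9_mono _ _ fun H hH => hH.2).trans h2
    · rintro ⟨ζ, j⟩ H ⟨-, T, hT1, hT2, hT3, -, rfl⟩
      have hom : ∀ x y : Fin (n + n), om ζ x y = om ζ y x := fun x y => (om_le ζ x y).2
      obtain ⟨-, f1, f2, f3, -⟩ := stp_ok T hT1 hT2 (om ζ) hom hT3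
      have f4 : ∀ x, ¬ HH T (om ζ) x x := fun x hx => hT2 x (f1 x x hx)
      obtain ⟨-, k1, k2, k3, -⟩ := stp_ok (HH T (om ζ)) f2 f4 (ω0 m 0) hω0 f3
      refine (V9_or _ _).trans (Nat.add_le_add ?_ ?_)
      · refine hs1 S hD1 n hn1' (om ζ) hom (fun x y => (om_le ζ x y).1.trans ?_) _ f2 f4 G
        exact Nat.mul_le_mul_left _ (Nat.mul_le_mul_right _ hp25)
      · exact hs2' 0 hm.pos _ k2 (fun x hx => f4 x (k1 x x hx)) k3 G
    · rintro A ⟨⟨G', hO, j, hj, hκ⟩, hbad⟩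
      push Not at hbad
      obtain ⟨y, t, ht, hζ⟩ := hbad
      obtain ⟨ζ, hζd⟩ : ∃ ζ : Fin (W.card + 1) → ZMod p, ζ = pt (W.card + 1) (SP (n + n) (pair G A)) g y t := ⟨_, rfl⟩
      rw [← hζd] at hζ
      obtain ⟨f, hf1, hf2⟩ := hasPM_iff.1 hj
      have hf : MTC.IsPM (TK n j G').Adj f := ⟨hf1, hf2⟩
      have hsym : ∀ x y, (TK n j G').Adj x y → (TK n j G').Adj y x := fun x y h => h.symm
      have hirr : ∀ x, ¬ (TK n j G').Adj x x := fun x => SimpleGraph.irrefl _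
      have hom : ∀ x y : Fin (n + n), om ζ x y = om ζ y x := fun x y => (om_le ζ x y).2
      refine ⟨(ζ, j), HH (TK n j G').Adj (om ζ), ⟨hζ, (TK n j G').Adj, hsym, hirr, ⟨f, hf⟩, fun x y hxy => ?_, rfl⟩, ?_⟩
      · rw [hW'd] at hxy
        exact tk_off W G G' hO j x y hxy
      · by_contra hcon
        rw [not_or] at hcon
        obtain ⟨q1, q2⟩ := hcon
        obtain ⟨π, hπ0, hπ⟩ := V9_pi (S := S) (N := n + n) (p := p) (d := W.card + 1) (by omega) (by omega) hp25 (by omega)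
          (SP (n + n) (pair G A)) g y ht
        rw [← hζd] at hπ
        have q3 : ∃ κ : Pq S (n + n), ∀ x y, (H1 (SP (n + n) (pair G A)) (TK n j G') κ π).Adj x y ↔
            HH (TK n j G').Adj (om ζ) x y := by
          by_contra q4
          exact q1 ⟨TK n j G', π, ⟨f, hf⟩, rfl, hπ0, hπ, q4⟩
        obtain ⟨κ, hκ1⟩ := q3
        have q5 : (H1 (SP (n + n) (pair G A)) (TK n j G') κ π).Adj = HH (TK n j G').Adj (om ζ) := by
          funext x y
          exact propext (hκ1 x y)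
        obtain ⟨-, -, -, f3, -⟩ := stp_ok (TK n j G').Adj hsym hirr (om ζ) hom ⟨f, hf⟩
        have q6 : ∃ κ' : Pq S (n + n), PMr (QLN.OutR (SP (n + n) (pair G A)) (H1 (SP (n + n) (pair G A)) (TK n j G') κ π) κ') := by
          by_contra q7
          exact q2 ⟨H1 (SP (n + n) (pair G A)) (TK n j G') κ π, by rw [q5]; exact f3, by rw [q5], q7⟩
        obtain ⟨κ', hκ'⟩ := q6
        refine hκ ⟨((κ, π), κ'), ?_⟩
        rw [SP_congr G' G A]
        exact hκ'
  have h2 : Nat.card {A : SimpleGraph (Fin n) // ∃ G' : SimpleGraph (Fin n), Off W G G' ∧ ∃ j, HasPM (TK n j G') ∧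
        ¬ ∃ ε : Pe S (n + n), PMr (OutE (SP (n + n) (pair G' A)) (TK n j G') ε)} ≤
      p ^ (5 * (W.card + 1)) + p ^ (W.card + 1) * ((n + n) + (n + n) * (n + n)) *
      ((n + n) ^ (6 * DD * W.card) * (2 ^ (c1 * Nat.log 2 n ^ 2) + 2 ^ (c2 * Nat.log 2 n ^ 2))) := by
    refine le_trans ?_ ((V9_or _ _).trans (Nat.add_le_add h0 h1))
    refine V9_mono _ _ fun A hA => ?_
    by_cases h3 : ∀ y : ZMod p, ∀ t ≤ 2 * (W.card + 1),
      BadW W' (rho (pt (W.card + 1) (SP (n + n) (pair G A)) g y t) : Fin (n + n) → ZMod p)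
    · exact Or.inl h3
    · exact Or.inr ⟨hA, h3⟩
  exact h2.trans (V9_num n W.card c1 c2 p DD hn64 hp25)

end QLE
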