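import Pool.Agent.Lib.MP_0087d5_lcQN.S0
import Pool.Agent.Lib.MP_0087d5_lcQN.FDefs
import Pool.Agent.Lib.MP_0087d5_lcLI.Sel

/-!
# Weak sources and local noise, with few exceptions in all ranges: the preliminary round

Before the algorithm of MP_0087d5_lcQN the tested graph `T` is replaced by the union `H` of its perfect matchings of least first weight. The first weights are `(r x).val * y + (r y).val * x`, where `r x` is the value at `x` of the polynomial of degree less than `d` over
`F_p` whose coefficients are a point of the walk of the source in `F_p ^ d` (so for each set `W` of at most `d` vertices the numbers `r x`, `x ∈ W`, are independent). The parameters `p, g, y, t, d` are tried in parallel, with the parameters `κ` of the round (`K = 1`, the number of the round `0` is `0`).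
-/

set_option autoImplicit false
set_option linter.all false

namespace QLE

open Finset Pool.Agent Pool.Agent.PMNC MTC LIN PRS QRB QSR QLN

section
variable {N : ℕ}

/-- the coordinate `u` of the walk of the source `X` in dimension `d` at the time `t`, as an integer -/
noncomputable def zd (X : SimpleGraph (Fin N)) (g y : ℤ) (t d u : ℕ) : ℤ :=
  zf X (g ^ u * y) + ∑ s ∈ range t, zf X (g ^ d * g ^ (2 * s + 1) * y) * zf X (g ^ d * g ^ (2 * s) * y) ^ u

end

/-- the parameters `p, g, y, t, d` of the first weights -/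
abbrev Pw (S : ℕ → Type) (N : ℕ) : Type := S N × (S N × (S N × (S N × S N)))

/-- all the parameters -/
abbrev Pe (S : ℕ → Type) (N : ℕ) : Type := (Pq S N × Pw S N) × Pq S N

section
variable {S : ℕ → Type} [Env S] [∀ n, Fintype (S n)] {N : ℕ}

/-- the number of the vertex `x` -/
noncomputable def vn (X : SimpleGraph (Fin N)) (π : Pw S N) (x : Fin N) : ℕ :=
  rz (nv π.1) (∑ u : Fin N, cnd ((u : ℕ) < nv π.2.2.2.2) (zd X (nv π.2.1) (nv π.2.2.1) (nv π.2.2.2.1) (nv π.2.2.2.2) u * ((x : ℕ) : ℤ) ^ (u : ℕ)) 0)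

/-- the first weights -/
noncomputable def Om (X : SimpleGraph (Fin N)) (π : Pw S N) (x y : Fin N) : ℕ := vn X π x * (y : ℕ) + vn X π y * (x : ℕ)

/-- the edges of `T`, with the first weights as ranks -/
def P0 (X T : SimpleGraph (Fin N)) (κ : Pq S N) (π : Pw S N) (x y : Fin N) (z : S N) : Prop :=
  T.Adj x y ∧ (¬ nv π.1 = 0) ∧ (¬ nv κ.2.2.1 = 0) ∧ nv z < nv κ.2.2.1 ∧ ((nv κ.2.2.1 : ℕ) : ℤ) ∣ ((nv z : ℕ) : ℤ) - ((Om X π x y : ℕ) : ℤ)

/-- the preliminary round -/
def H1 (X T : SimpleGraph (Fin N)) (κ : Pq S N) (π : Pw S N) : SimpleGraph (Fin N) where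
  Adj x y := T.Adj x y ∧ ∃ i : Fin N, (i : ℕ) = 0 ∧ (∃ z, StC X κ i (P0 X T κ π) x y z) ∧ ∃ z, StC X κ i (P0 X T κ π) y x z
  symm := ⟨fun _ _ h => ⟨h.1.symm, h.2.imp fun _ h' => ⟨h'.1, h'.2.2, h'.2.1⟩⟩⟩
  loopless := ⟨fun _ h => SimpleGraph.irrefl T h.1⟩

/-- the output: the algorithm of MP_0087d5_lcQN for the graph `H1` -/
def OutE (X T : SimpleGraph (Fin N)) (ε : Pe S N) (x y : Fin N) : Prop := QLN.OutR X (H1 X T ε.1.1 ε.1.2) ε.2 x y

end

section
variable (S : ℕ → Type) [Env S] [∀ n, Fintype (S n)] {N : ℕ}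

/-- the least parameters which give a perfect matching of a tested graph `T1 … d` -/
def LsE (G : SimpleGraph (Fin N)) (e : Fin N × Pe S N) : Prop :=
  PMr (OutE (SP N G) (T1 N G e.1) e.2) ∧ ∀ e' : Fin N × Pe S N, PMr (OutE (SP N G) (T1 N G e'.1) e'.2) →
    e.1 < e'.1 ∨ (e.1 = e'.1 ∧ nv (S := fun n => Pe S n) e.2 ≤ nv (S := fun n => Pe S n) e'.2)

/-- the matching in the first half -/
def ME (G : SimpleGraph (Fin N)) (u v : Fin N) : Prop :=
  lo u ∧ lo v ∧ ∃ e : Fin N × Pe S N, LsE S G e ∧ OutE (SP N G) (T1 N G e.1) e.2 u v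

/-- the set `D` of the decomposition of Gallai and Edmonds, in the first half -/
def GE (G : SimpleGraph (Fin N)) (v : Fin N) : Prop :=
  lo v ∧ ∃ e : Fin N × Pe S N, LsE S G e ∧ ∃ κ : Pe S N, PMr (OutE (SP N G) (T2 N G (e.1, v)) κ)

/-- the set `A` of the decomposition of Gallai and Edmonds, in the first half -/
def UE (G : SimpleGraph (Fin N)) (w : Fin N) : Prop := lo w ∧ ¬ GE S G w ∧ ∃ u, GE S G u ∧ G.Adj w u

end

section
variable {N p d : ℕ}

/-- the numbers of the vertices in `F_p`: values of the polynomial with the coefficients `ζ` -/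
def rho (ζ : Fin d → ZMod p) (x : Fin N) : ZMod p := ∑ u : Fin d, ζ u * ((x : ℕ) : ZMod p) ^ (u : ℕ)

/-- the first weights of the point `ζ` -/
def om (ζ : Fin d → ZMod p) (x y : Fin N) : ℕ := w2 (rho ζ) x y

/-- the bad points for the first weights, for the pairs inside `W0` -/
def BadW (W0 : Finset (Fin N)) (r : Fin N → ZMod p) : Prop :=
  ∃ (W Z J : Finset (Fin N)) (z1 z2 i1 i2 : Fin N → Fin N), W ⊆ W0 ∧ GoodS W Z J z1 z2 i1 i2 ∧ Pot W Z z1 z2 i1 i2 r

end

section
variable {N q D : ℕ}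

/-- the point `z` is good for the preliminary round with the graph `H` and the weights `ω` -/
def GoodH (R m : ℕ) (H : Fin N → Fin N → Prop) (ω : Fin N → Fin N → ℕ) (z : Fin D → ZMod q) : Prop :=
  ∀ v w, GoodY q (Am H v w) (um ω v w) (YZ R m z)

end

end QLE
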