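import Pool.Agent.Lib.MP_0087d5_lcQE.VDefs
import Pool.Agent.Lib.MP_0087d5_lcQN.D1

/-!
# Leaf W1 (medium): the first weights are definable

Proof. As leaf D1 of MP_0087d5_lcQN (`defZ_zk`): `D1_zf` (copy), `DefZ.pow`, the exponents `2 * s`, `2 * s + 1` and the sum over `s < t` as there (`sum_cnd_nv`); `g ^ d` is `DefZ.pow (H := S)`. `((x : ℕ) : ℤ)` is `DefZ.nv'` for `Fin n` (`nv_fin`). `vn` is `defZ_rz` (QS/D1) of a sum over `u : Fin n` of `DefZ.ite ((u : ℕ) < nv …)` (`DefP.nLt (F := fun n => Fin n) (H := S)`).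
-/

set_option autoImplicit false
set_option linter.all false

namespace QLE

open Finset Pool.Agent Pool.Agent.PMNC MTC LIN PRS QRB QSR QLN

/-- the hashing map of the source -/
private theorem W1_zf {E S : ℕ → Type} [Env E] [Env S] [∀ n, Fintype (S n)] {p : ∀ n : ℕ, E n → S n} (hp : Tm p)
    {φ : ∀ n : ℕ, SimpleGraph (Fin n) → Ctx n → E n → ℤ} (h : DefZ p φ) : DefZ p (fun n G X x => zf (SP n G) (φ n G X x)) :=
  defZ_zf (E := E) (S := S) (B := E) (A := fun n G _ => SP n G)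
    (DefP.comp (E := fun n => E n × (Fin n × Fin n)) (F := fun n => Fin n × Fin n) (f := fun n y => y.2) def_SP (Tm.snd Tm.id))
    (b := fun n x => x) Tm.id hp h

section
variable {E S : ℕ → Type} [Env E] [Env S] [∀ n, Fintype (S n)]

theorem defZ_zd {p : ∀ n : ℕ, E n → S n} (hp : Tm p) {π : ∀ n : ℕ, E n → Pw S n} (hπ : Tm (F := fun n => Pw S n) π)
    {u : ∀ n : ℕ, E n → Fin n} (hu : Tm (F := fun n => Fin n) u) :
    DefZ p (fun n G X e => zd (SP n G) (nv (π n e).2.1) (nv (π n e).2.2.1) (nv (π n e).2.2.2.1) (nv (π n e).2.2.2.2) (u n e)) := by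
  have hc : ∀ {f : ∀ n : ℕ, E n → S n}, Tm f → Tm (fun n (y : E n × S n) => f n y.1) := fun hf =>
    hf.comp (Tm.fst Tm.id)
  have hg : Tm (fun n (e : E n) => (π n e).2.1) := Tm.fst (F := S) (Tm.snd (F := S) hπ)
  have hy : Tm (fun n (e : E n) => (π n e).2.2.1) := Tm.fst (F := S) (Tm.snd (F := S) (Tm.snd (F := S) hπ))
  have ht : Tm (fun n (e : E n) => (π n e).2.2.2.1) :=
    Tm.fst (F := S) (Tm.snd (F := S) (Tm.snd (F := S) (Tm.snd (F := S) hπ)))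
  have hd : Tm (fun n (e : E n) => (π n e).2.2.2.2) :=
    Tm.snd (F := S) (Tm.snd (F := S) (Tm.snd (F := S) (Tm.snd (F := S) hπ)))
  have hG := DefZ.nv' (H := S) hp hg
  have hY := DefZ.nv' (H := S) hp hy
  have h0 : DefZ p (fun n G X e => zf (SP n G) (((nv (π n e).2.1 : ℕ) : ℤ) ^ (nv (S := fun n => Fin n) (u n e)) *
      ((nv (π n e).2.2.1 : ℕ) : ℤ))) :=
    W1_zf hp (DefZ.mul hp (DefZ.pow (H := fun n => Fin n) hp hG hu) hY)
  have hG1 : DefZ (E := fun n => E n × S n) (fun n y => p n y.1) (fun n G X y => ((nv (π n y.1).2.1 : ℕ) : ℤ)) :=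
    DefZ.nv' (E := fun n => E n × S n) (H := S) (hc hp) (hc hg)
  have hY1 : DefZ (E := fun n => E n × S n) (fun n y => p n y.1) (fun n G X y => ((nv (π n y.1).2.2.1 : ℕ) : ℤ)) :=
    DefZ.nv' (E := fun n => E n × S n) (H := S) (hc hp) (hc hy)
  have hpw : DefZ (E := fun n => E n × S n) (fun n y => p n y.1) (fun n G X y => ((nv (π n y.1).2.1 : ℕ) : ℤ) ^ nv y.2) :=
    DefZ.pow (E := fun n => E n × S n) (H := S) (hc hp) hG1 (Tm.snd Tm.id)
  have hD1 : DefZ (E := fun n => E n × S n) (fun n y => p n y.1) (fun n G X y => ((nv (π n y.1).2.1 : ℕ) : ℤ) ^ nv (π n y.1).2.2.2.2) :=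
    DefZ.pow (E := fun n => E n × S n) (H := S) (hc hp) hG1 (hc hd)
  have ha : DefZ (E := fun n => E n × S n) (fun n y => p n y.1) (fun n G X y => zf (SP n G) (((nv (π n y.1).2.1 : ℕ) : ℤ) ^ nv (π n y.1).2.2.2.2 *
      ((nv (π n y.1).2.1 : ℕ) : ℤ) ^ (2 * nv y.2) * ((nv (π n y.1).2.2.1 : ℕ) : ℤ))) := by
    refine (W1_zf (E := fun n => E n × S n) (S := S) (hc hp) (DefZ.mul (hc hp) (DefZ.mul (hc hp) hD1 (DefZ.mul (hc hp) hpw hpw)) hY1)).congr fun n G X y => ?_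
    rw [← pow_add, ← two_mul]
  have hb : DefZ (E := fun n => E n × S n) (fun n y => p n y.1) (fun n G X y => zf (SP n G) (((nv (π n y.1).2.1 : ℕ) : ℤ) ^ nv (π n y.1).2.2.2.2 *
      ((nv (π n y.1).2.1 : ℕ) : ℤ) ^ (2 * nv y.2 + 1) * ((nv (π n y.1).2.2.1 : ℕ) : ℤ))) := by
    refine (W1_zf (E := fun n => E n × S n) (S := S) (hc hp) (DefZ.mul (hc hp) (DefZ.mul (hc hp) hD1 (DefZ.mul (hc hp) (DefZ.mul (hc hp) hpw hpw) hG1)) hY1)).congr fun n G X y => ?_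
    rw [← pow_add, ← two_mul, ← pow_succ]
  have hs : DefZ p (fun n G X e => ∑ s : S n, cnd (nv s < nv (π n e).2.2.2.1)
      (zf (SP n G) (((nv (π n e).2.1 : ℕ) : ℤ) ^ nv (π n e).2.2.2.2 * ((nv (π n e).2.1 : ℕ) : ℤ) ^ (2 * nv s + 1) * ((nv (π n e).2.2.1 : ℕ) : ℤ)) *
        zf (SP n G) (((nv (π n e).2.1 : ℕ) : ℤ) ^ nv (π n e).2.2.2.2 * ((nv (π n e).2.1 : ℕ) : ℤ) ^ (2 * nv s) * ((nv (π n e).2.2.1 : ℕ) : ℤ)) ^
            nv (S := fun n => Fin n) (u n e)) 0) := by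
    refine DefZ.sum (F := S) hp (DefZ.ite (E := fun n => E n × S n) (DefP.nLt (F := S) (H := S) (Tm.snd Tm.id) (hc ht))
      (DefZ.mul (hc hp) hb (DefZ.pow (H := fun n => Fin n) (hc hp) ha (hu.comp (Tm.fst Tm.id))))
      (DefZ.zero (hc hp)))
  refine (DefZ.add hp h0 hs).congr fun n G X e => ?_
  rw [sum_cnd_nv (π n e).2.2.2.1 (fun s => zf (SP n G) (((nv (π n e).2.1 : ℕ) : ℤ) ^ nv (π n e).2.2.2.2 *
    ((nv (π n e).2.1 : ℕ) : ℤ) ^ (2 * s + 1) * ((nv (π n e).2.2.1 : ℕ) : ℤ)) *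
        zf (SP n G) (((nv (π n e).2.1 : ℕ) : ℤ) ^ nv (π n e).2.2.2.2 * ((nv (π n e).2.1 : ℕ) : ℤ) ^ (2 * s) * ((nv (π n e).2.2.1 : ℕ) : ℤ)) ^
            nv (S := fun n => Fin n) (u n e)), nv_fin]
  rfl

theorem defZ_vn {p : ∀ n : ℕ, E n → S n} (hp : Tm p) {π : ∀ n : ℕ, E n → Pw S n} (hπ : Tm (F := fun n => Pw S n) π)
    {x : ∀ n : ℕ, E n → Fin n} (hx : Tm (F := fun n => Fin n) x) :
    DefZ p (fun n G X e => cnd (nv (π n e).1 = 0) 0 ((vn (SP n G) (π n e) (x n e) : ℕ) : ℤ)) := by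
  have hm : Tm (fun n (e : E n) => (π n e).1) := Tm.fst (F := S) hπ
  have hd : Tm (fun n (e : E n) => (π n e).2.2.2.2) :=
    Tm.snd (F := S) (Tm.snd (F := S) (Tm.snd (F := S) (Tm.snd (F := S) hπ)))
  have hm1 : Tm (fun n (y : E n × Fin n) => (π n y.1).1) := hm.comp (Tm.fst Tm.id)
  have hd1 : Tm (fun n (y : E n × Fin n) => (π n y.1).2.2.2.2) := hd.comp (Tm.fst Tm.id)
  have hπ1 : Tm (F := fun n => Pw S n) (fun n (y : E n × Fin n) => π n y.1) := hπ.comp (Tm.fst Tm.id)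
  have hx1 : Tm (F := fun n => Fin n) (fun n (z : E n × Fin n) => x n z.1) := hx.comp (Tm.fst Tm.id)
  have hi1 : Tm (F := fun n => Fin n) (fun n (y : E n × Fin n) => y.2) := Tm.snd Tm.id
  have hz := defZ_zd (E := fun n => E n × Fin n) (S := S) hm1 hπ1 hi1
  have hpw := DefZ.pow (E := fun n => E n × Fin n) (H := fun n => Fin n) hm1
    (DefZ.nv' (E := fun n => E n × Fin n) (H := fun n => Fin n) hm1 hx1) hi1
  have hs : DefZ (fun n (e : E n) => (π n e).1) (fun n G X e => ∑ v : Fin n, cnd (nv (S := fun n => Fin n) v < nv (π n e).2.2.2.2)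
      (zd (SP n G) (nv (π n e).2.1) (nv (π n e).2.2.1) (nv (π n e).2.2.2.1) (nv (π n e).2.2.2.2) v *
        ((nv (S := fun n => Fin n) (x n e) : ℕ) : ℤ) ^ nv (S := fun n => Fin n) v) 0) :=
    DefZ.sum (F := fun n => Fin n) hm (DefZ.ite (E := fun n => E n × Fin n) (DefP.nLt (F := fun n => Fin n) (H := S) hi1 hd1)
      (DefZ.mul hm1 hz hpw) (DefZ.zero hm1))
  refine (defZ_rz hp hm hs).congr fun n G X e => ?_
  by_cases h0 : nv (π n e).1 = 0
  · rw [cnd_pos h0, cnd_pos h0]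
  · rw [cnd_neg h0, cnd_neg h0]
    simp only [nv_fin]
    rfl

theorem defZ_Om {p : ∀ n : ℕ, E n → S n} (hp : Tm p) {π : ∀ n : ℕ, E n → Pw S n} (hπ : Tm (F := fun n => Pw S n) π)
    {x y : ∀ n : ℕ, E n → Fin n} (hx : Tm (F := fun n => Fin n) x) (hy : Tm (F := fun n => Fin n) y) :
    DefZ p (fun n G X e => cnd (nv (π n e).1 = 0) 0 ((Om (SP n G) (π n e) (x n e) (y n e) : ℕ) : ℤ)) := by
  have hm : Tm (fun n (e : E n) => (π n e).1) := Tm.fst (F := S) hπ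
  have hX := defZ_vn (S := S) hp hπ hx
  have hY := defZ_vn (S := S) hp hπ hy
  refine (DefZ.add hp (DefZ.mul hp hX (DefZ.nv' (H := fun n => Fin n) hp hy))
    (DefZ.mul hp hY (DefZ.nv' (H := fun n => Fin n) hp hx))).congr fun n G X e => ?_
  by_cases h0 : nv (π n e).1 = 0
  · rw [cnd_pos h0, cnd_pos h0, cnd_pos h0, zero_mul, zero_mul, add_zero]
  · rw [cnd_neg h0, cnd_neg h0, cnd_neg h0]
    simp only [nv_fin]
    unfold Om
    push_cast
    ring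

end

end QLE
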