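import Pool.Agent.Lib.MP_0087d5_lcQE.W1
import Pool.Agent.Lib.MP_0087d5_lcQN.D4

/-!
# Leaf W2 (medium-): the preliminary round and the output are definable

Proof. `P0`: the divisibility as in `UvC` (see `D3_uv` in leaf D3 of MP_0087d5_lcQN), with `defZ_Om` (leaf W1; the environment condition `¬ nv π.1 = 0` is part of `P0`). `def_H1`: `QLN.def_StC` with `P n G X e x y z := P0 (SP n G) (T n G …) … x y z`. `def_OutE`: `QLN.def_OutR` with `B n := B n × (Pq S n × Pw S n)`,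
`T n G b := H1 (SP n G) (T n G b.1) b.2.1 b.2.2`, composed with the rearrangement of the tuples.
-/

set_option autoImplicit false
set_option linter.all false

namespace QLE

open Finset Pool.Agent Pool.Agent.PMNC MTC LIN PRS QRB QSR QLN

private theorem W2_zero {E : ℕ → Type} [Env E] {f : ∀ n : ℕ, E n → Fin n} (hf : Tm (F := fun n => Fin n) f) :
    DefP (fun n G X x => ((f n x : Fin n) : ℕ) = 0) := by
  refine DefP.congr (P := fun n G X x => nv (S := fun n => Fin n) (f n x) = 0) ?_ (fun n G X x => by simp only [nv_fin])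
  exact DefP.nZero (F := fun n => Fin n) hf

private theorem W2_P0 {S B E : ℕ → Type} [Env S] [Env B] [Env E] [∀ n, Fintype (S n)] {T : ∀ n : ℕ, SimpleGraph (Fin n) → B n → SimpleGraph (Fin n)}
    (hT : DefP (E := fun n => B n × (Fin n × Fin n)) (fun n G X y => (T n G y.1).Adj y.2.1 y.2.2))
    {b : ∀ n : ℕ, E n → B n} (hb : Tm (F := B) b) {κ : ∀ n : ℕ, E n → Pq S n} (hκ : Tm (F := fun n => Pq S n) κ) {π : ∀ n : ℕ, E n → Pw S n} (hπ : Tm (F := fun n => Pw S n) π)
    {x y : ∀ n : ℕ, E n → Fin n} (hx : Tm (F := fun n => Fin n) x) (hy : Tm (F := fun n => Fin n) y) {z : ∀ n : ℕ, E n → S n} (hz : Tm z) :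
    DefP (fun n G X e => P0 (SP n G) (T n G (b n e)) (κ n e) (π n e) (x n e) (y n e) (z n e)) := by
  have hq : Tm (fun n (e : E n) => (κ n e).2.2.1) := Tm.fst (F := S) (Tm.snd (F := S) (Tm.snd (F := S) hκ))
  have hp : Tm (fun n (e : E n) => (π n e).1) := Tm.fst (F := S) hπ
  have hd := DefZ.dvd (DefZ.sub hq (DefZ.nv' (H := S) hq hz) (defZ_Om (S := S) hq hπ hx hy))
  have hA : DefP (fun n G X e => (T n G (b n e)).Adj (x n e) (y n e)) :=
    DefP.comp (F := fun n => B n × (Fin n × Fin n)) (f := fun n e => (b n e, (x n e, y n e))) hT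
      (Tm.pair (F := B) (H := fun n => Fin n × Fin n) hb (Tm.pair (F := fun n => Fin n) (H := fun n => Fin n) hx hy))
  refine DefP.congr (DefP.and hA (DefP.and (DefP.not (DefP.nZero hp)) (DefP.and (DefP.not (DefP.nZero hq)) (DefP.and (DefP.nLt hz hq) hd)))) fun n G X e => ?_
  unfold P0
  refine and_congr_right fun _ => and_congr_right fun h0 => and_congr_right fun hq0 => and_congr_right fun hlt => ?_
  rw [cnd_neg h0]
  exact ⟨fun h => h.2, fun h => ⟨lt_of_le_of_lt (Nat.zero_le _) hlt, h⟩⟩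

theorem def_H1 {S B : ℕ → Type} [Env S] [Env B] [∀ n, Fintype (S n)] {T : ∀ n : ℕ, SimpleGraph (Fin n) → B n → SimpleGraph (Fin n)}
    (hT : DefP (E := fun n => B n × (Fin n × Fin n)) (fun n G X y => (T n G y.1).Adj y.2.1 y.2.2)) :
    DefP (E := fun n => (B n × (Pq S n × Pw S n)) × (Fin n × Fin n)) (fun n G X y => (H1 (SP n G) (T n G y.1.1) y.1.2.1 y.1.2.2).Adj y.2.1 y.2.2) := by
  refine DefP.congr (P := fun n G X (y : (B n × (Pq S n × Pw S n)) × (Fin n × Fin n)) => (T n G y.1.1).Adj y.2.1 y.2.2 ∧ ∃ i : Fin n, (i : ℕ) = 0 ∧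
    (∃ z : S n, StC (SP n G) y.1.2.1 i (P0 (SP n G) (T n G y.1.1) y.1.2.1 y.1.2.2) y.2.1 y.2.2 z) ∧
      ∃ z : S n, StC (SP n G) y.1.2.1 i (P0 (SP n G) (T n G y.1.1) y.1.2.1 y.1.2.2) y.2.2 y.2.1 z) ?_ (fun n G X y => Iff.rfl)
  have hP : DefP (E := fun n => ((((B n × (Pq S n × Pw S n)) × (Fin n × Fin n)) × Fin n) × S n) × (Fin n × (Fin n × S n)))
      (fun n G X y => P0 (SP n G) (T n G y.1.1.1.1.1) y.1.1.1.1.2.1 y.1.1.1.1.2.2 y.2.1 y.2.2.1 y.2.2.2) := by
    refine W2_P0 (E := fun n => ((((B n × (Pq S n × Pw S n)) × (Fin n × Fin n)) × Fin n) × S n) × (Fin n × (Fin n × S n))) hT ?_ ?_ ?_ ?_ ?_ ?_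
    all_goals repeat' (first | exact Tm.id | apply Tm.fst | apply Tm.snd | apply Tm.pair)
  refine DefP.and ?_ (DefP.exFin (DefP.and (W2_zero ?_) (DefP.and (DefP.ex (F := S) ?_) (DefP.ex (F := S) ?_))))
  · refine DefP.comp (F := fun n => B n × (Fin n × Fin n)) hT (f := fun n (y : (B n × (Pq S n × Pw S n)) × (Fin n × Fin n)) => (y.1.1, (y.2.1, y.2.2))) ?_
    repeat' (first | exact Tm.id | apply Tm.fst | apply Tm.snd | apply Tm.pair)
  · repeat' (first | exact Tm.id | apply Tm.fst | apply Tm.snd | apply Tm.pair)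
  · refine QLN.def_StC (E := fun n => (((B n × (Pq S n × Pw S n)) × (Fin n × Fin n)) × Fin n) × S n) (S := S)
      (P := fun n G X e x y z => P0 (SP n G) (T n G e.1.1.1.1) e.1.1.1.2.1 e.1.1.1.2.2 x y z) hP ?_ ?_ ?_ ?_ ?_
    all_goals repeat' (first | exact Tm.id | apply Tm.fst | apply Tm.snd | apply Tm.pair)
  · refine QLN.def_StC (E := fun n => (((B n × (Pq S n × Pw S n)) × (Fin n × Fin n)) × Fin n) × S n) (S := S)
      (P := fun n G X e x y z => P0 (SP n G) (T n G e.1.1.1.1) e.1.1.1.2.1 e.1.1.1.2.2 x y z) hP ?_ ?_ ?_ ?_ ?_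
    all_goals repeat' (first | exact Tm.id | apply Tm.fst | apply Tm.snd | apply Tm.pair)

theorem def_OutE {S B : ℕ → Type} [Env S] [Env B] [∀ n, Fintype (S n)] {T : ∀ n : ℕ, SimpleGraph (Fin n) → B n → SimpleGraph (Fin n)}
    (hT : DefP (E := fun n => B n × (Fin n × Fin n)) (fun n G X y => (T n G y.1).Adj y.2.1 y.2.2)) :
    DefP (E := fun n => (B n × Pe S n) × (Fin n × Fin n)) (fun n G X y => OutE (SP n G) (T n G y.1.1) y.1.2 y.2.1 y.2.2) := by
  have h := QLN.def_OutR (S := S) (B := fun n => B n × (Pq S n × Pw S n)) (T := fun n G b => H1 (SP n G) (T n G b.1) b.2.1 b.2.2) (def_H1 (S := S) hT)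
  have t1 : Tm (E := fun n => (B n × Pe S n) × (Fin n × Fin n)) (F := B) (fun n y => y.1.1) := Tm.fst (Tm.fst Tm.id)
  have t2 : Tm (E := fun n => (B n × Pe S n) × (Fin n × Fin n)) (F := fun n => Pq S n × Pw S n) (fun n y => y.1.2.1) :=
    Tm.fst (F := fun n => Pq S n × Pw S n) (H := fun n => Pq S n) (Tm.snd (F := B) (H := fun n => Pe S n) (Tm.fst (F := fun n => B n × Pe S n) (H := fun n => Fin n × Fin n) Tm.id))
  have t3 : Tm (E := fun n => (B n × Pe S n) × (Fin n × Fin n)) (F := fun n => Pq S n) (fun n y => y.1.2.2) :=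
    Tm.snd (F := fun n => Pq S n × Pw S n) (H := fun n => Pq S n) (Tm.snd (F := B) (H := fun n => Pe S n) (Tm.fst (F := fun n => B n × Pe S n) (H := fun n => Fin n × Fin n) Tm.id))
  have t4 : Tm (E := fun n => (B n × Pe S n) × (Fin n × Fin n)) (F := fun n => Fin n × Fin n) (fun n y => y.2) := Tm.snd (F := fun n => B n × Pe S n) (H := fun n => Fin n × Fin n) Tm.id
  have h5 := DefP.comp (F := fun n => ((B n × (Pq S n × Pw S n)) × Pq S n) × (Fin n × Fin n)) h
    (f := fun n (y : (B n × Pe S n) × (Fin n × Fin n)) => (((y.1.1, y.1.2.1), y.1.2.2), y.2))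
    (Tm.pair (F := fun n => (B n × (Pq S n × Pw S n)) × Pq S n) (H := fun n => Fin n × Fin n)
      (Tm.pair (F := fun n => B n × (Pq S n × Pw S n)) (H := fun n => Pq S n) (Tm.pair (F := B) (H := fun n => Pq S n × Pw S n) t1 t2) t3) t4)
  exact DefP.congr h5 fun n G X y => Iff.rfl

end QLE
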