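import Pool.Agent.Lib.MP_0087d5_lcQE.W2
import Pool.Agent.Lib.MP_0087d5_lcQN.D5

/-!
# Leaf W3 (easy+): the matching and the set are definable

Proof: copy of leaf D5 of MP_0087d5_lcQN (`def_MQ`, `def_UQ`) with `def_OutE` (leaf W2), `Pe` in place of `Pq`.
-/

set_option autoImplicit false
set_option linter.all false

namespace QLE

open Finset Pool.Agent Pool.Agent.PMNC MTC LIN PRS QRB QSR QLN

section
variable {S B E : ℕ → Type} [Env S] [Env B] [Env E] [∀ n, Fintype (S n)]

private theorem W3_outT {T : ∀ n : ℕ, SimpleGraph (Fin n) → B n → SimpleGraph (Fin n)}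
    (hT : DefP (E := fun n => B n × (Fin n × Fin n)) (fun n G X y => (T n G y.1).Adj y.2.1 y.2.2))
    {e : ∀ n : ℕ, E n → B n × Pe S n} {u v : ∀ n : ℕ, E n → Fin n}
    (he : Tm (F := fun n => B n × Pe S n) e) (hu : Tm (F := fun n => Fin n) u) (hv : Tm (F := fun n => Fin n) v) :
    DefP (fun n G X x => OutE (SP n G) (T n G (e n x).1) (e n x).2 (u n x) (v n x)) :=
  DefP.comp (F := fun n => (B n × Pe S n) × (Fin n × Fin n)) (f := fun n x => (e n x, (u n x, v n x))) (def_OutE hT)
    (Tm.pair (F := fun n => B n × Pe S n) (H := fun n => Fin n × Fin n) he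
      (Tm.pair (F := fun n => Fin n) (H := fun n => Fin n) hu hv))

private theorem W3_pm {T : ∀ n : ℕ, SimpleGraph (Fin n) → B n → SimpleGraph (Fin n)}
    (hT : DefP (E := fun n => B n × (Fin n × Fin n)) (fun n G X y => (T n G y.1).Adj y.2.1 y.2.2))
    {e : ∀ n : ℕ, E n → B n × Pe S n} (he : Tm (F := fun n => B n × Pe S n) e) :
    DefP (fun n G X x => PMr (OutE (SP n G) (T n G (e n x).1) (e n x).2)) := by
  unfold PMr
  have e2 : Tm (E := fun n => (E n × Fin n) × Fin n) (F := fun n => B n × Pe S n) (fun n y => e n y.1.1) :=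
    Tm.comp (g := e) (F := E) he (Tm.fst (Tm.fst Tm.id))
  have a2 : Tm (E := fun n => (E n × Fin n) × Fin n) (F := fun n => Fin n) (fun n y => y.1.2) := Tm.snd (Tm.fst Tm.id)
  have b2 : Tm (E := fun n => (E n × Fin n) × Fin n) (F := fun n => Fin n) (fun n y => y.2) := Tm.snd Tm.id
  have e3 : Tm (E := fun n => ((E n × Fin n) × Fin n) × Fin n) (F := fun n => B n × Pe S n) (fun n y => e n y.1.1.1) :=
    Tm.comp (g := e) (F := E) he (Tm.fst (Tm.fst (Tm.fst Tm.id)))
  have a3 : Tm (E := fun n => ((E n × Fin n) × Fin n) × Fin n) (F := fun n => Fin n) (fun n y => y.1.1.2) :=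
    Tm.snd (Tm.fst (Tm.fst Tm.id))
  have b3 : Tm (E := fun n => ((E n × Fin n) × Fin n) × Fin n) (F := fun n => Fin n) (fun n y => y.1.2) := Tm.snd (Tm.fst Tm.id)
  have c3 : Tm (E := fun n => ((E n × Fin n) × Fin n) × Fin n) (F := fun n => Fin n) (fun n y => y.2) := Tm.snd Tm.id
  refine DefP.and (DefP.allFin (DefP.exFin (W3_outT hT e2 a2 b2))) (DefP.and ?_ ?_)
  · exact DefP.allFin (DefP.allFin (DefP.allFin (DefP.imp (W3_outT hT e3 a3 b3) (DefP.imp (W3_outT hT e3 a3 c3) (DefP.eqFin b3 c3)))))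
  · exact DefP.allFin (DefP.allFin (DefP.imp (W3_outT hT e2 a2 b2) (W3_outT hT e2 b2 a2)))

end

section
variable {S E : ℕ → Type} [Env S] [Env E] [∀ n, Fintype (S n)]

private theorem W3_lst {e : ∀ n : ℕ, E n → Fin n × Pe S n} (he : Tm (F := fun n => Fin n × Pe S n) e) :
    DefP (fun n G X x => LsE S G (e n x)) := by
  unfold LsE
  have f : Tm (E := fun n => E n × (Fin n × Pe S n)) (F := fun n => Fin n × Pe S n) (fun n y => y.2) := Tm.snd Tm.id
  have e1 : Tm (E := fun n => E n × (Fin n × Pe S n)) (F := fun n => Fin n × Pe S n) (fun n y => e n y.1) :=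
    Tm.comp (g := e) (F := E) he (Tm.fst Tm.id)
  have fa := Tm.fst (F := fun n => Fin n) (H := fun n => Pe S n) f
  have fb := Tm.snd (F := fun n => Fin n) (H := fun n => Pe S n) f
  have ea := Tm.fst (F := fun n => Fin n) (H := fun n => Pe S n) e1
  have eb := Tm.snd (F := fun n => Fin n) (H := fun n => Pe S n) e1
  refine DefP.and (W3_pm (B := fun n => Fin n) (T := T1) def_T1 he) (DefP.all (F := fun n => Fin n × Pe S n)
    (DefP.imp (W3_pm (B := fun n => Fin n) (T := T1) def_T1 f) (DefP.or (DefP.lt ea fa)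
    (DefP.and (DefP.eqFin ea fa) (DefP.nLe (F := fun n => Pe S n) (H := fun n => Pe S n) eb fb)))))

private theorem W3_gq {v : ∀ n : ℕ, E n → Fin n} (hv : Tm (F := fun n => Fin n) v) :
    DefP (fun n G X x => GE S G (v n x)) := by
  unfold GE
  have f : Tm (E := fun n => E n × (Fin n × Pe S n)) (F := fun n => Fin n × Pe S n) (fun n y => y.2) := Tm.snd Tm.id
  refine DefP.and (def_lo hv) (DefP.ex (F := fun n => Fin n × Pe S n) (DefP.and (W3_lst f)
    (DefP.ex (F := fun n => Pe S n) ?_)))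
  have g : Tm (E := fun n => (E n × (Fin n × Pe S n)) × (Pe S n)) (F := fun n => Fin n) (fun n y => y.1.2.1) :=
    Tm.fst (F := fun n => Fin n) (H := fun n => Pe S n) (Tm.snd (Tm.fst Tm.id))
  have w : Tm (E := fun n => (E n × (Fin n × Pe S n)) × (Pe S n)) (F := fun n => Fin n) (fun n y => v n y.1.1) :=
    Tm.comp (g := v) (F := E) hv (Tm.fst (Tm.fst Tm.id))
  have c : Tm (E := fun n => (E n × (Fin n × Pe S n)) × (Pe S n)) (F := fun n => Pe S n) (fun n y => y.2) :=
    Tm.snd Tm.id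
  exact W3_pm (B := fun n => Fin n × Fin n) (T := T2) def_T2
    (e := fun n (y : (E n × (Fin n × Pe S n)) × (Pe S n)) => ((y.1.2.1, v n y.1.1), y.2))
    (Tm.pair (F := fun n => Fin n × Fin n) (H := fun n => Pe S n) (Tm.pair (F := fun n => Fin n) (H := fun n => Fin n) g w) c)

end

theorem def_ME {S : ℕ → Type} [Env S] [∀ n, Fintype (S n)] :
    DefP (E := fun n => Fin n × Fin n) (fun n G X y => ME S G y.1 y.2) := by
  unfold ME
  have u : Tm (E := fun n => Fin n × Fin n) (F := fun n => Fin n) (fun n y => y.1) := Tm.fst Tm.id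
  have v : Tm (E := fun n => Fin n × Fin n) (F := fun n => Fin n) (fun n y => y.2) := Tm.snd Tm.id
  have f : Tm (E := fun n => (Fin n × Fin n) × (Fin n × Pe S n)) (F := fun n => Fin n × Pe S n) (fun n y => y.2) :=
    Tm.snd Tm.id
  have u1 : Tm (E := fun n => (Fin n × Fin n) × (Fin n × Pe S n)) (F := fun n => Fin n) (fun n y => y.1.1) :=
    Tm.fst (F := fun n => Fin n) (H := fun n => Fin n) (Tm.fst Tm.id)
  have v1 : Tm (E := fun n => (Fin n × Fin n) × (Fin n × Pe S n)) (F := fun n => Fin n) (fun n y => y.1.2) :=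
    Tm.snd (F := fun n => Fin n) (H := fun n => Fin n) (Tm.fst Tm.id)
  exact DefP.and (def_lo u) (DefP.and (def_lo v) (DefP.ex (F := fun n => Fin n × Pe S n)
    (DefP.and (W3_lst f) (W3_outT (B := fun n => Fin n) (T := T1) def_T1 f u1 v1))))

theorem def_UE {S : ℕ → Type} [Env S] [∀ n, Fintype (S n)] : DefP (E := fun n => Fin n) (fun n G X v => UE S G v) := by
  unfold UE
  have v : Tm (E := fun n => Fin n) (F := fun n => Fin n) (fun n y => y) := Tm.id
  have u1 : Tm (E := fun n => Fin n × Fin n) (F := fun n => Fin n) (fun n y => y.1) := Tm.fst Tm.id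
  have v1 : Tm (E := fun n => Fin n × Fin n) (F := fun n => Fin n) (fun n y => y.2) := Tm.snd Tm.id
  exact DefP.and (def_lo v) (DefP.and (DefP.not (W3_gq v)) (DefP.exFin (DefP.and (W3_gq v1) (DefP.adj u1 v1))))

end QLE
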