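import Pool.Agent.Lib.MP_0087d5_lcQE.V9
import Pool.Agent.Lib.MP_0087d5_lcQE.W3
import Pool.Agent.Lib.MP_0087d5_lcQE.W4
import Pool.Agent.Lib.MP_0087d5_lcPR.SFin

/-!
# Leaf W5 (medium-): assembly

Proof. Copy of leaf F4 of MP_0087d5_lcQN (`QLN.main`) with `exc_count` (leaf V9), `def_ME`, `def_UE` (leaf W3), `me_matching`, `me_main` (leaf W4). For `n < n0`: `n ≤ 1`: there is only one graph, and the right side is at least `1` (`n = 1`: `1 ^ _`; `n = 0`: the exponent is `0`, as `W` is empty and `Nat.log 2 0 = 0`); `2 ≤ n < n0`: the number of all graphs on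
`n` vertices is at most `2 ^ (n ^ 2) ≤ n ^ (n0 ^ 2 * Nat.log 2 n)`. `C' = c + n0 ^ 2`.
-/

set_option autoImplicit false
set_option linter.all false

namespace QLE

open Finset Pool.Agent Pool.Agent.PMNC MTC LIN PRS QRB QSR QLN

/-- the matching -/
private def W5_M (S : ℕ → Type) [Env S] [∀ n, Fintype (S n)] (n : ℕ) (G A : SimpleGraph (Fin n)) : SimpleGraph (Fin n) where
  Adj u v := ME S (pair G A) (Fin.castAdd n u) (Fin.castAdd n v)
  symm := ⟨fun u v h => (me_matching G A).2.1 u v h⟩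
  loopless := ⟨fun u h => G.irrefl ((me_matching G A).1 u u h)⟩

/-- the set -/
private def W5_U (S : ℕ → Type) [Env S] [∀ n, Fintype (S n)] (n : ℕ) (G A : SimpleGraph (Fin n)) : Set (Fin n) :=
  {w | UE S (pair G A) (Fin.castAdd n w)}

private theorem W5_all (n : ℕ) : Nat.card (SimpleGraph (Fin n)) ≤ 2 ^ (n ^ 2) := by
  classical
  have h1 := Nat.card_le_card_of_injective (fun G : SimpleGraph (Fin n) => {p : Fin n × Fin n | G.Adj p.1 p.2}) (by
    intro G H h
    ext u v
    have h2 : (u, v) ∈ {p : Fin n × Fin n | G.Adj p.1 p.2} ↔ (u, v) ∈ {p : Fin n × Fin n | H.Adj p.1 p.2} := by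
      have h3 : {p : Fin n × Fin n | G.Adj p.1 p.2} = {p : Fin n × Fin n | H.Adj p.1 p.2} := h
      rw [h3]
    exact h2)
  rw [Nat.card_eq_fintype_card (α := Set (Fin n × Fin n)), Fintype.card_set, Fintype.card_prod, Fintype.card_fin] at h1
  rw [pow_two]
  exact h1

private theorem W5_eq {S : ℕ → Type} [Env S] [∀ n, Fintype (S n)] {n : ℕ} (hn : 1 ≤ n) (G A : SimpleGraph (Fin n))
    (h : ¬ ∃ j, HasPM (TK n j G) ∧ ¬ ∃ κ : Pe S (n + n), PMr (OutE (SP (n + n) (pair G A)) (TK n j G) κ)) :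
    ((⊤ : G.Subgraph).deleteVerts (W5_U S n G A)).coe.oddComponents.ncard =
      (W5_U S n G A).ncard + {v | ∀ w, ¬ (W5_M S n G A).Adj v w}.ncard := by
  push Not at h
  rw [← odd_eq]
  have h1 := me_main (S := S) hn G A (fun d hd => by
      have h2 := h (Sum.inl d)
      rw [tk_inl G A] at h2
      exact h2 hd) (fun d v hd => by
      have h2 := h (Sum.inr (d, v))
      rw [tk_inr G A] at h2
      exact h2 hd)
  exact h1

theorem main {C : ℕ} (hW : IsoMostW C) :
    ∃ (M : ∀ n : ℕ, SimpleGraph (Fin n) → SimpleGraph (Fin n) → SimpleGraph (Fin n)) (U : ∀ n : ℕ, SimpleGraph (Fin n) → SimpleGraph (Fin n) → Set (Fin n)) (C' : ℕ),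
    AUG.RelNC2 2 (fun n G A x => (M n G A).Adj (x 0) (x 1)) ∧ AUG.RelNC2 1 (fun n G A x => x 0 ∈ U n G A) ∧
    (∀ (n : ℕ) (G A : SimpleGraph (Fin n)), M n G A ≤ G ∧ ∀ u v w, (M n G A).Adj u v → (M n G A).Adj u w → v = w) ∧
    ∀ (n : ℕ) (G : SimpleGraph (Fin n)) (W : Finset (Fin n)),
      Nat.card {A : SimpleGraph (Fin n) // ∃ G' : SimpleGraph (Fin n), (∀ u v, ¬ (u ∈ W ∧ v ∈ W) → (G'.Adj u v ↔ G.Adj u v)) ∧
        ((⊤ : G'.Subgraph).deleteVerts (U n G' A)).coe.oddComponents.ncard ≠ (U n G' A).ncard + {v | ∀ w, ¬ (M n G' A).Adj v w}.ncard} ≤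
      n ^ (C' * (W.card + Nat.log 2 n)) := by
  classical
  obtain ⟨c, n0, D, hn0, hexc⟩ := exc_count hW
  obtain ⟨S, i1, i2, hS⟩ := exists_SS D
  refine ⟨W5_M S, W5_U S, c + n0 ^ 2, ?_, ?_, ?_, ?_⟩
  · exact bridgeR (rel2_of_defP (P := fun n G u v => ME S G u v) def_ME)
  · exact bridgeR (rel1_of_defP (P := fun n G u => UE S G u) def_UE)
  · intro n G A
    exact ⟨fun u v h => (me_matching G A).1 u v h, fun u v w h1 h2 => (me_matching G A).2.2 u v w h1 h2⟩
  · intro n G W
    rcases Nat.lt_or_ge n n0 with hn | hn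
    · rcases Nat.lt_or_ge 1 n with hn1 | hn1
      · have hL : 1 ≤ Nat.log 2 n := Nat.log_pos (by norm_num) (by omega)
        have h1 : Nat.card {A : SimpleGraph (Fin n) // ∃ G' : SimpleGraph (Fin n), (∀ u v, ¬ (u ∈ W ∧ v ∈ W) → (G'.Adj u v ↔ G.Adj u v)) ∧
            ((⊤ : G'.Subgraph).deleteVerts (W5_U S n G' A)).coe.oddComponents.ncard ≠
              (W5_U S n G' A).ncard + {v | ∀ w, ¬ (W5_M S n G' A).Adj v w}.ncard} ≤ Nat.card (SimpleGraph (Fin n)) :=
          Nat.card_le_card_of_injective (fun A => A.1) Subtype.val_injective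
        refine (h1.trans (W5_all n)).trans ((Nat.pow_le_pow_left (by omega : 2 ≤ n) _).trans (Nat.pow_le_pow_right (by omega) ?_))
        have h2 : n ^ 2 ≤ n0 ^ 2 := Nat.pow_le_pow_left hn.le 2
        have h3 : n0 ^ 2 * 1 ≤ (c + n0 ^ 2) * (W.card + Nat.log 2 n) := Nat.mul_le_mul (Nat.le_add_left _ _) (by omega)
        omega
      · have h1 : Subsingleton (SimpleGraph (Fin n)) := by
          have : Subsingleton (Fin n) := by
            rcases Nat.le_one_iff_eq_zero_or_eq_one.1 hn1 with rfl | rfl <;> infer_instance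
          refine ⟨fun G H => ?_⟩
          ext u v
          have huv : u = v := Subsingleton.elim u v
          subst huv
          exact ⟨fun h => absurd h G.irrefl, fun h => absurd h H.irrefl⟩
        have h2 : ∀ P : SimpleGraph (Fin n) → Prop, Nat.card {A : SimpleGraph (Fin n) // P A} ≤ 1 := by
          intro P
          exact Finite.card_le_one_iff_subsingleton.2 ⟨fun a b => Subtype.ext (Subsingleton.elim _ _)⟩
        refine (h2 _).trans ?_
        rcases Nat.le_one_iff_eq_zero_or_eq_one.1 hn1 with rfl | rfl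
        · have h3 : W.card = 0 := by
            have h4 := Finset.card_le_univ W
            rw [Fintype.card_fin] at h4
            omega
          rw [h3]
          simp
        · rw [one_pow]
    · have h1 := hexc S (le_of_eq hS.symm) n hn G W
      have h2 : n ^ (c * (W.card + Nat.log 2 n)) ≤ n ^ ((c + n0 ^ 2) * (W.card + Nat.log 2 n)) :=
        Nat.pow_le_pow_right (by omega) (Nat.mul_le_mul_right _ (Nat.le_add_right _ _))
      refine le_trans ?_ (h1.trans h2)
      refine Nat.card_le_card_of_injective (fun A : {A : SimpleGraph (Fin n) // ∃ G' : SimpleGraph (Fin n), (∀ u v, ¬ (u ∈ W ∧ v ∈ W) → (G'.Adj u v ↔ G.Adj u v)) ∧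
            ((⊤ : G'.Subgraph).deleteVerts (W5_U S n G' A)).coe.oddComponents.ncard ≠
              (W5_U S n G' A).ncard + {v | ∀ w, ¬ (W5_M S n G' A).Adj v w}.ncard} =>
          (⟨A.1, ?_⟩ : {A : SimpleGraph (Fin n) // ∃ G' : SimpleGraph (Fin n), Off W G G' ∧ ∃ j, HasPM (TK n j G') ∧
        ¬ ∃ κ : Pe S (n + n), PMr (OutE (SP (n + n) (pair G' A)) (TK n j G') κ)})) ?_
      · obtain ⟨G', hG', hne⟩ := A.2
        refine ⟨G', hG', ?_⟩
        by_contra hc
        exact hne (W5_eq (by omega) G' A.1 hc)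
      · intro a b hab
        have h := congrArg (fun z => z.1) hab
        exact Subtype.ext h

end QLE
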